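import Mathlib

/-!
# AS: blown up structures, definitions
-/

set_option autoImplicit false

namespace Pool.Agent.Helper87.AS

open FirstOrder FirstOrder.Language

/-- `p` enumerates `M` disjoint blocks of `k` points which can be permuted arbitrarily by
automorphisms fixing any given set of at most `R` other points. -/
structure Homog (L : FirstOrder.Language.{0, 0}) (A : Type) [L.Structure A] {M k : ℕ}
    (p : Fin M → Fin k → A) (R : ℕ) : Prop where
  inj : ∀ i c j d, p i c = p j d → i = j ∧ c = d
  sym : ∀ (τ : Equiv.Perm (Fin M)) (Z : Finset A), Z.card ≤ R → (∀ i c, p i c ∉ Z) →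
    ∃ g : A ≃[L] A, (∀ z ∈ Z, g z = z) ∧ ∀ i c, g (p i c) = p (τ i) c

/-- The points outside the blocks together with a block for each element of `I`. -/
abbrev BT {A : Type} {M k : ℕ} (p : Fin M → Fin k → A) (I : Type) : Type :=
  {x : A // ∀ i c, p i c ≠ x} ⊕ (I × Fin k)

/-- The map induced by a map of the index sets. -/
def bmap {A : Type} {M k : ℕ} (p : Fin M → Fin k → A) {I J : Type} (ι : I → J) :
    BT p I → BT p J := Sum.map id (Prod.map ι id)

/-- A family of structures compatible with all injections. -/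
structure Functorial {L : FirstOrder.Language.{0, 0}} {A : Type} {M k : ℕ}
    (p : Fin M → Fin k → A) (S : ∀ I : Type, L.Structure (BT p I)) : Prop where
  fn : ∀ (I J : Type) (ι : I → J), Function.Injective ι → ∀ (n : ℕ) (f : L.Functions n)
    (v : Fin n → BT p I), (S J).funMap f (bmap p ι ∘ v) = bmap p ι ((S I).funMap f v)
  rl : ∀ (I J : Type) (ι : I → J), Function.Injective ι → ∀ (n : ℕ) (r : L.Relations n)
    (v : Fin n → BT p I), (S J).RelMap r (bmap p ι ∘ v) ↔ (S I).RelMap r v

/-- The largest number of bound variables in scope. -/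
def mx {L : FirstOrder.Language.{0, 0}} {α : Type} : ∀ {n : ℕ}, L.BoundedFormula α n → ℕ
  | n, .falsum => n
  | n, .equal _ _ => n
  | n, .rel _ _ => n
  | _, .imp f g => max (mx f) (mx g)
  | _, .all f => mx f

/-- The automorphisms as a group of permutations. -/
def autSub (L : FirstOrder.Language.{0, 0}) (A : Type) [L.Structure A] :
    Subgroup (Equiv.Perm A) where
  carrier := {g | (∀ (n : ℕ) (f : L.Functions n) (v : Fin n → A),
      g (Structure.funMap f v) = Structure.funMap f (g ∘ v)) ∧
    ∀ (n : ℕ) (r : L.Relations n) (v : Fin n → A),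
      Structure.RelMap r (g ∘ v) ↔ Structure.RelMap r v}
  mul_mem' := by
    rintro g h ⟨hg, hg'⟩ ⟨hh, hh'⟩
    refine ⟨fun n f v => ?_, fun n r v => ?_⟩
    · rw [Equiv.Perm.mul_apply, hh, hg]
      rfl
    · rw [Equiv.Perm.coe_mul, Function.comp_assoc, hg', hh']
  one_mem' := ⟨fun _ _ _ => rfl, fun _ _ _ => Iff.rfl⟩
  inv_mem' := by
    rintro g ⟨hg, hg'⟩
    refine ⟨fun n f v => ?_, fun n r v => ?_⟩
    · rw [Equiv.Perm.inv_eq_iff_eq, hg, ← Function.comp_assoc, ← Equiv.Perm.coe_mul,
        mul_inv_cancel]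
      rfl
    · rw [← hg', ← Function.comp_assoc, ← Equiv.Perm.coe_mul, mul_inv_cancel]
      rfl

end Pool.Agent.Helper87.AS
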