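import Pool.Agent.Helper87.AS.Orb

/-!
# AS-2: the closure operator of a tame permutation group
-/

set_option autoImplicit false

namespace Pool.Agent.Helper87.AS

open Finset

variable {Ω : Type} [Fintype Ω] [DecidableEq Ω] {H : Subgroup (Equiv.Perm Ω)} {Z Z' : Finset Ω}
  {T K s : ℕ} {x y w u : Ω}

theorem mem_cl : x ∈ cl H T Z ↔ T ≤ (orb H ∅ x).card ∧ 2 * (orb H Z x).card ≤ (orb H ∅ x).card := by
  unfold cl
  simp

theorem cl_mono (h : Z ⊆ Z') : cl H T Z ⊆ cl H T Z' := by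
  intro x hx
  rw [mem_cl] at hx ⊢
  refine ⟨hx.1, le_trans ?_ hx.2⟩
  exact Nat.mul_le_mul_left _ (orb_card_mono h x)

theorem orb_empty_card {g : Equiv.Perm Ω} (hg : g ∈ H) (x : Ω) :
    (orb H ∅ (g x)).card = (orb H ∅ x).card := by
  have := orb_image_card hg ∅ x
  rwa [image_empty] at this

theorem cl_image {g : Equiv.Perm Ω} (hg : g ∈ H) (Z : Finset Ω) (x : Ω) :
    g x ∈ cl H T (Z.image g) ↔ x ∈ cl H T Z := by
  rw [mem_cl, mem_cl, orb_image_card hg, orb_empty_card hg]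

omit [Fintype Ω] in
theorem image_fix {g : Equiv.Perm Ω} (hg : ∀ z ∈ Z, g z = z) : Z.image g = Z := by
  ext z
  rw [mem_image]
  constructor
  · rintro ⟨w, hw, rfl⟩
    rw [hg w hw]
    exact hw
  · intro hz
    exact ⟨z, hz, hg z hz⟩

theorem cl_fix {g : Equiv.Perm Ω} (hg : g ∈ H) (hZ : ∀ z ∈ Z, g z = z) (x : Ω) :
    g x ∈ cl H T Z ↔ x ∈ cl H T Z := by
  have := cl_image (T := T) hg Z x
  rwa [image_fix hZ] at this

theorem orb_subset_cl (hx : x ∈ cl H T Z) : orb H Z x ⊆ cl H T Z := by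
  intro y hy
  obtain ⟨g, hg, hg', rfl⟩ := mem_orb.1 hy
  exact (cl_fix hg hg' x).2 hx

theorem notMem_cl_empty (hT : 1 ≤ T) : x ∉ cl H T ∅ := by
  intro hx
  rw [mem_cl] at hx
  have := orb_pos H ∅ x
  omega

theorem orb_card_of_mem (hx : x ∈ Z) : (orb H Z x).card = 1 := by
  rw [card_eq_one]
  refine ⟨x, ?_⟩
  ext y
  rw [mem_orb, mem_singleton]
  constructor
  · rintro ⟨g, -, hg, rfl⟩
    exact hg x hx
  · rintro rfl
    exact ⟨1, H.one_mem, fun _ _ => rfl, rfl⟩

theorem self_mem_cl (hT : 2 ≤ T) (hx : T ≤ (orb H ∅ x).card) (hZ : x ∈ Z) : x ∈ cl H T Z := by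
  rw [mem_cl, orb_card_of_mem hZ]
  exact ⟨hx, by omega⟩

/-- two points of a large orbit outside the closure of `Z` are conjugate over `Z` -/
theorem giant (hx : T ≤ (orb H ∅ x).card) (hy : y ∈ orb H ∅ x) (hx' : x ∉ cl H T Z)
    (hy' : y ∉ cl H T Z) : y ∈ orb H Z x := by
  by_contra hcon
  have h1 : Disjoint (orb H Z x) (orb H Z y) := by
    rw [disjoint_left]
    intro w hw hw'
    exact hcon (orb_trans hw (orb_symm hw'))
  have hxy : orb H ∅ y = orb H ∅ x := orb_eq hy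
  have h2 : (orb H Z x) ∪ (orb H Z y) ⊆ orb H ∅ x := by
    refine union_subset (orb_mono (empty_subset _) x) ?_
    rw [← hxy]
    exact orb_mono (empty_subset _) y
  have h3 := card_le_card h2
  rw [card_union_of_disjoint h1] at h3
  rw [mem_cl] at hx' hy'
  rw [hxy] at hy'
  have h4 : (orb H ∅ x).card < 2 * (orb H Z x).card := by
    by_contra h
    exact hx' ⟨hx, by omega⟩
  have h5 : (orb H ∅ x).card < 2 * (orb H Z y).card := by
    by_contra h
    exact hy' ⟨hx, by omega⟩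
  omega

theorem Tame.two_le (h : Tame H T K s) : 2 ≤ T := by
  have h1 := h.big
  have h2 : 0 < (K + 1) ^ 2 * (s + 1) ^ 2 := by positivity
  have h3 : 4 * (K + 1) ^ 2 * (s + 1) ^ 2 = 4 * ((K + 1) ^ 2 * (s + 1) ^ 2) := by ring
  omega

/-- transitivity of the closure -/
theorem Tame.trans (h : Tame H T K s) (hZ : Z.card + 1 ≤ s) (hu : u ∈ cl H T Z)
    (hw : w ∈ cl H T (insert u Z)) : w ∈ cl H T Z := by
  rw [mem_cl] at hw ⊢
  refine ⟨hw.1, ?_⟩
  have h1 := orb_le H Z u w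
  have h2 : (orb H Z u).card ≤ K * Z.card :=
    (card_le_card (orb_subset_cl hu)).trans (h.cl_card Z (by omega))
  have hw' : w ∈ cl H T (insert u Z) := by
    rw [mem_cl]
    exact hw
  have h3 : (orb H (insert u Z) w).card ≤ K * (Z.card + 1) := by
    refine (card_le_card (orb_subset_cl hw')).trans ((h.cl_card _ ?_).trans ?_)
    · exact (card_insert_le _ _).trans hZ
    · exact Nat.mul_le_mul_left _ (card_insert_le _ _)
  have h4 : (orb H Z w).card ≤ (K * Z.card) * (K * (Z.card + 1)) :=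
    h1.trans (Nat.mul_le_mul h2 h3)
  have h5 : (K * Z.card) * (K * (Z.card + 1)) ≤ (K * s) * (K * s) := by
    refine Nat.mul_le_mul (Nat.mul_le_mul_left _ (by omega)) (Nat.mul_le_mul_left _ hZ)
  have h6 := h.big
  have h7 : 2 * ((K * s) * (K * s)) ≤ 4 * (K + 1) ^ 2 * (s + 1) ^ 2 := by
    have h8 : K * s ≤ (K + 1) * (s + 1) := Nat.mul_le_mul (by omega) (by omega)
    calc 2 * ((K * s) * (K * s)) ≤ 2 * (((K + 1) * (s + 1)) * ((K + 1) * (s + 1))) :=
          Nat.mul_le_mul_left _ (Nat.mul_le_mul h8 h8)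
      _ ≤ 4 * (K + 1) ^ 2 * (s + 1) ^ 2 := by nlinarith [sq_nonneg ((K + 1) * (s + 1))]
  omega

/-- exchange -/
theorem Tame.exch (h : Tame H T K s) (hZ : Z.card + 1 ≤ s) (hu : T ≤ (orb H ∅ u).card)
    (hw : w ∈ cl H T (insert u Z)) (hw' : w ∉ cl H T Z) : u ∈ cl H T (insert w Z) := by
  by_contra hcon
  have hwT := (mem_cl.1 hw).1
  have h1 := orb_swap H Z u w
  have h3 : (orb H (insert u Z) w).card ≤ K * (Z.card + 1) := by
    refine (card_le_card (orb_subset_cl hw)).trans ((h.cl_card _ ?_).trans ?_)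
    · exact (card_insert_le _ _).trans hZ
    · exact Nat.mul_le_mul_left _ (card_insert_le _ _)
  have h4 : (orb H ∅ w).card < 2 * (orb H Z w).card := by
    by_contra hh
    exact hw' (mem_cl.2 ⟨hwT, by omega⟩)
  have h5 : (orb H ∅ u).card < 2 * (orb H (insert w Z) u).card := by
    by_contra hh
    exact hcon (mem_cl.2 ⟨hu, by omega⟩)
  have h6 : (orb H Z u).card ≤ (orb H ∅ u).card := orb_card_mono (empty_subset _) u
  have h7 : K * (Z.card + 1) ≤ K * s := Nat.mul_le_mul_left _ hZ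
  have h8 : (orb H ∅ w).card * (orb H ∅ u).card <
      (2 * (orb H Z w).card) * (2 * (orb H (insert w Z) u).card) :=
    Nat.mul_lt_mul'' h4 h5
  have h9 : (orb H Z u).card * (orb H (insert u Z) w).card ≤ (orb H ∅ u).card * (K * s) :=
    Nat.mul_le_mul h6 (h3.trans h7)
  have h10 : (orb H ∅ w).card * (orb H ∅ u).card < 4 * (K * s) * (orb H ∅ u).card := by
    calc (orb H ∅ w).card * (orb H ∅ u).card
        < (2 * (orb H Z w).card) * (2 * (orb H (insert w Z) u).card) := h8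
      _ = 4 * ((orb H Z w).card * (orb H (insert w Z) u).card) := by ring
      _ = 4 * ((orb H Z u).card * (orb H (insert u Z) w).card) := by rw [h1]
      _ ≤ 4 * ((orb H ∅ u).card * (K * s)) := Nat.mul_le_mul_left _ h9
      _ = 4 * (K * s) * (orb H ∅ u).card := by ring
  have h11 : (orb H ∅ w).card < 4 * (K * s) := lt_of_mul_lt_mul_right h10 (Nat.zero_le _)
  have h12 := h.big
  have h13 : 4 * (K * s) ≤ 4 * (K + 1) ^ 2 * (s + 1) ^ 2 := by
    have h8 : K * s ≤ (K + 1) * (s + 1) := Nat.mul_le_mul (by omega) (by omega)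
    have h9 : (K + 1) * (s + 1) ≤ ((K + 1) * (s + 1)) * ((K + 1) * (s + 1)) :=
      Nat.le_mul_self _
    calc 4 * (K * s) ≤ 4 * (((K + 1) * (s + 1)) * ((K + 1) * (s + 1))) :=
          Nat.mul_le_mul_left _ (h8.trans h9)
      _ = 4 * (K + 1) ^ 2 * (s + 1) ^ 2 := by ring
  omega

/-- points in small orbits do not matter for points in very large orbits -/
theorem Tame.small (h : Tame H T K s) (hZ : Z.card + 1 ≤ s) (hw : (orb H ∅ w).card < T)
    (hx : 4 * K * (s + 1) * T ≤ (orb H ∅ x).card) (hxZ : x ∈ cl H T (insert w Z)) :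
    x ∈ cl H T Z := by
  by_contra hcon
  have hxT := (mem_cl.1 hxZ).1
  have h1 := orb_le H Z w x
  have h2 : (orb H Z w).card ≤ T := (orb_card_mono (empty_subset _) w).trans hw.le
  have h3 : (orb H (insert w Z) x).card ≤ K * (Z.card + 1) := by
    refine (card_le_card (orb_subset_cl hxZ)).trans ((h.cl_card _ ?_).trans ?_)
    · exact (card_insert_le _ _).trans hZ
    · exact Nat.mul_le_mul_left _ (card_insert_le _ _)
  have h4 : (orb H ∅ x).card < 2 * (orb H Z x).card := by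
    by_contra hh
    exact hcon (mem_cl.2 ⟨hxT, by omega⟩)
  have h5 : (orb H Z x).card ≤ T * (K * s) :=
    h1.trans (Nat.mul_le_mul h2 (h3.trans (Nat.mul_le_mul_left _ hZ)))
  have h6 : 2 * (T * (K * s)) ≤ 4 * K * (s + 1) * T := by
    have h7 : 4 * K * (s + 1) * T = 4 * (T * (K * s)) + 4 * (T * K) := by ring
    omega
  omega

end Pool.Agent.Helper87.AS
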