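import Pool.Agent.Helper87.AS.Cl

/-!
# AS-4: closures have linear size

Proof of `cl_bound`. All summands of `hW Z` are `≥ 0` (`orb_card_mono`, `orb_pos`).
1. For `x ∈ cl H T Z`: `2 * |orb H Z x| ≤ |orb H ∅ x|`, so the summand of `x` is `≥ log 2 ≥ 1 / 2`
   (`Real.log_two_gt_d9`). Hence `|cl H T Z| ≤ 2 * C * L * |Z| ≤ 2 * C * L * s`.
2. For `x ∈ cl H T Z`: `orb H Z x ⊆ cl H T Z` (`orb_subset_cl`), so
   `log |orb H Z x| ≤ log (2 * C * L * s) ≤ δ * L / 2`, while `log |orb H ∅ x| ≥ log T ≥ δ * L`. So the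
   summand of `x` is `≥ δ * L / 2`, and `|cl H T Z| * (δ * L / 2) ≤ C * L * |Z|`, that is
   `|cl H T Z| ≤ (2 * C / δ) * |Z| ≤ K * |Z|`.
-/

set_option autoImplicit false

namespace Pool.Agent.Helper87.AS

open Finset

theorem cl_bound {Ω : Type} [Fintype Ω] [DecidableEq Ω] {H : Subgroup (Equiv.Perm Ω)}
    {C δ L : ℝ} {s T K : ℕ} (hC : 0 < C) (hδ : 0 < δ) (hL : 0 < L) (hT : 1 ≤ T)
    (h1 : δ * L ≤ Real.log T) (h2 : Real.log (2 * C * L * s) ≤ δ * L / 2) (hK : 2 * C / δ ≤ K)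
    (hW : ∀ Z : Finset Ω, ∑ x : Ω,
      (Real.log (orb H ∅ x).card - Real.log (orb H Z x).card) ≤ C * L * Z.card)
    (Z : Finset Ω) (hZ : Z.card ≤ s) : (cl H T Z).card ≤ K * Z.card := by
  have hnn : ∀ x : Ω, 0 ≤ Real.log (orb H ∅ x).card - Real.log (orb H Z x).card := by
    intro x
    have e1 : ((orb H Z x).card : ℝ) ≤ ((orb H ∅ x).card : ℝ) := by
      exact_mod_cast orb_card_mono (empty_subset Z) x
    have e2 : (0 : ℝ) < ((orb H Z x).card : ℝ) := by
      exact_mod_cast orb_pos H Z x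
    have e3 := Real.log_le_log e2 e1
    linarith
  have hsum : ∑ x ∈ cl H T Z,
      (Real.log (orb H ∅ x).card - Real.log (orb H Z x).card) ≤ C * L * Z.card := by
    refine le_trans ?_ (hW Z)
    exact Finset.sum_le_sum_of_subset_of_nonneg (Finset.subset_univ _) (fun x _ _ => hnn x)
  have hcase : (cl H T Z).card = 0 ∨ 0 < (cl H T Z).card := Nat.eq_zero_or_pos _
  rcases hcase with h0 | hpos
  · rw [h0]
    exact Nat.zero_le _
  have step1 : ∀ x ∈ cl H T Z,
      (1 / 2 : ℝ) ≤ Real.log (orb H ∅ x).card - Real.log (orb H Z x).card := by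
    intro x hx
    rw [mem_cl] at hx
    have e1 : (2 : ℝ) * ((orb H Z x).card : ℝ) ≤ ((orb H ∅ x).card : ℝ) := by
      exact_mod_cast hx.2
    have e2 : (0 : ℝ) < ((orb H Z x).card : ℝ) := by
      exact_mod_cast orb_pos H Z x
    have e3 := Real.log_le_log (by positivity) e1
    rw [Real.log_mul (by norm_num) e2.ne'] at e3
    have e4 := Real.log_two_gt_d9
    linarith
  have hcard1 : ((cl H T Z).card : ℝ) ≤ 2 * C * L * s := by
    have e1 := Finset.card_nsmul_le_sum (cl H T Z) _ _ step1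
    rw [nsmul_eq_mul] at e1
    have e2 : (Z.card : ℝ) ≤ (s : ℝ) := by exact_mod_cast hZ
    have e3 : C * L * (Z.card : ℝ) ≤ C * L * (s : ℝ) :=
      mul_le_mul_of_nonneg_left e2 (by positivity)
    nlinarith
  have step2 : ∀ x ∈ cl H T Z,
      δ * L / 2 ≤ Real.log (orb H ∅ x).card - Real.log (orb H Z x).card := by
    intro x hx
    have e0 : (orb H Z x).card ≤ (cl H T Z).card := card_le_card (orb_subset_cl hx)
    have e1 : ((orb H Z x).card : ℝ) ≤ 2 * C * L * s := by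
      refine le_trans ?_ hcard1
      exact_mod_cast e0
    have e2 : (0 : ℝ) < ((orb H Z x).card : ℝ) := by
      exact_mod_cast orb_pos H Z x
    have e3 := Real.log_le_log e2 e1
    have e4 : ((T : ℕ) : ℝ) ≤ ((orb H ∅ x).card : ℝ) := by
      exact_mod_cast (mem_cl.1 hx).1
    have e5 : (0 : ℝ) < (T : ℝ) := by
      exact_mod_cast hT
    have e6 := Real.log_le_log e5 e4
    linarith
  have e1 := Finset.card_nsmul_le_sum (cl H T Z) _ _ step2
  rw [nsmul_eq_mul] at e1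
  have e2 : ((cl H T Z).card : ℝ) * (δ * L / 2) ≤ C * L * Z.card := e1.trans hsum
  have e3 : ((cl H T Z).card : ℝ) * δ ≤ 2 * C * Z.card := by
    have e4 : (((cl H T Z).card : ℝ) * δ) * L ≤ (2 * C * Z.card) * L := by linarith
    exact le_of_mul_le_mul_right e4 hL
  have e5 : ((cl H T Z).card : ℝ) ≤ 2 * C / δ * Z.card := by
    rw [div_mul_eq_mul_div, le_div_iff₀ hδ]
    exact e3
  have e6 : 2 * C / δ * (Z.card : ℝ) ≤ (K : ℝ) * Z.card :=
    mul_le_mul_of_nonneg_right hK (Nat.cast_nonneg _)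
  exact_mod_cast e5.trans e6

end Pool.Agent.Helper87.AS
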