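import Pool.Agent.Helper31.Spectra
import Pool.Agent.Helper87.AS.BTDefs

/-!
# AS-14: labelled models and automorphisms

* `card_autSub`: `autSub L A` is in bijection with `A ≃[L] A`.
* `exists_equiv`: an element of `autSub L A` is (the underlying permutation of) an element of `A ≃[L] A`.
* `finite_str`: over a finite vocabulary a finite set carries finitely many structures: the map
  `S ↦ (fun x v => S.funMap x.2 v, fun x v => S.RelMap x.2 v)` to
  `((x : Σ n, L.Functions n) → (Fin x.1 → A) → A) × ((x : Σ n, L.Relations n) → (Fin x.1 → A) → Prop)` is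
  injective.
* `factorial_le`: for `σ : Equiv.Perm (Fin n)` let `T σ` be the structure transported along `σ`
  (`funMap f v = σ (funMap f (σ⁻¹ ∘ v))`, `RelMap r v = RelMap r (σ⁻¹ ∘ v)`; or `Equiv.inducedStructure`).
  `σ` is an isomorphism from `S` to `T σ`, so `T σ` realises `φ`. If `T σ = T σ'` then
  `σ'⁻¹ * σ ∈ autSub L (Fin n)`; so all fibres of `T` have at most `|autSub L (Fin n)|` elements and
  `n! ≤ |image of T| * |autSub L (Fin n)|` (`Finset.card_le_mul_card_image` or similar).
-/

set_option autoImplicit false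

namespace Pool.Agent.Helper87.AS

open FirstOrder FirstOrder.Language Pool.Agent.Helper31.Spectra

theorem exists_equiv {L : FirstOrder.Language.{0, 0}} {A : Type} [L.Structure A]
    {g : Equiv.Perm A} (hg : g ∈ autSub L A) : ∃ f : A ≃[L] A, ∀ x, f x = g x :=
  ⟨{ toEquiv := g
     map_fun' := fun {n} f x => hg.1 n f x
     map_rel' := fun {n} r x => hg.2 n r x }, fun _ => rfl⟩

theorem card_autSub (L : FirstOrder.Language.{0, 0}) (A : Type) [L.Structure A] :
    Nat.card (autSub L A) = Nat.card (A ≃[L] A) := by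
  refine Nat.card_congr
    { toFun := fun g => { toEquiv := g.1
                          map_fun' := fun {n} f x => g.2.1 n f x
                          map_rel' := fun {n} r x => g.2.2 n r x }
      invFun := fun f => ⟨f.toEquiv, fun _ φ x => f.map_fun φ x, fun _ r x => f.map_rel r x⟩
      left_inv := fun g => rfl
      right_inv := fun f => rfl }

private lemma str_ext {L : FirstOrder.Language.{0, 0}} {A : Type} (S S' : L.Structure A)
    (h1 : ∀ (n : ℕ) (f : L.Functions n) (v : Fin n → A), S.funMap f v = S'.funMap f v)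
    (h2 : ∀ (n : ℕ) (r : L.Relations n) (v : Fin n → A), S.RelMap r v ↔ S'.RelMap r v) :
    S = S' := by
  obtain ⟨F, R⟩ := S
  obtain ⟨F', R'⟩ := S'
  have e1 : @F = @F' := by
    funext n f v
    exact h1 n f v
  have e2 : @R = @R' := by
    funext n r v
    exact propext (h2 n r v)
  subst e1
  subst e2
  rfl

theorem finite_str {L : FirstOrder.Language.{0, 0}} (hL : FinVoc L) (A : Type) [Finite A] :
    Finite (L.Structure A) := by
  obtain ⟨h1, h2⟩ := hL
  let Φ : L.Structure A → ((x : Σ n, L.Functions n) → (Fin x.1 → A) → A) ×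
      ((x : Σ n, L.Relations n) → (Fin x.1 → A) → Prop) :=
    fun S => (fun x v => S.funMap x.2 v, fun x v => S.RelMap x.2 v)
  refine Finite.of_injective Φ ?_
  intro S S' h
  refine str_ext S S' (fun n f v => ?_) (fun n r v => ?_)
  · have := congrFun (congrFun (congrArg Prod.fst h) ⟨n, f⟩) v
    exact this
  · have := congrFun (congrFun (congrArg Prod.snd h) ⟨n, r⟩) v
    exact Iff.of_eq this

/-- The structure transported along a permutation. -/
@[reducible] private def tr {L : FirstOrder.Language.{0, 0}} {A : Type} (S : L.Structure A)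
    (σ : Equiv.Perm A) : L.Structure A where
  funMap := fun {_} f v => σ (S.funMap f (⇑σ⁻¹ ∘ v))
  RelMap := fun {_} r v => S.RelMap r (⇑σ⁻¹ ∘ v)

private lemma tr_realize {L : FirstOrder.Language.{0, 0}} {A : Type} (S : L.Structure A)
    (σ : Equiv.Perm A) (φ : L.Sentence) (hS : @Sentence.Realize L A S φ) :
    @Sentence.Realize L A (tr S σ) φ := by
  let e : @FirstOrder.Language.Equiv L A A S (tr S σ) :=
    @FirstOrder.Language.Equiv.mk L A A S (tr S σ) σ
      (fun {n} f x => by
        show σ (S.funMap f x) = σ (S.funMap f (⇑σ⁻¹ ∘ (σ ∘ x)))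
        congr 2
        funext i
        simp)
      (fun {n} r x => by
        show S.RelMap r (⇑σ⁻¹ ∘ (σ ∘ x)) ↔ S.RelMap r x
        have : (⇑σ⁻¹ ∘ (σ ∘ x) : Fin n → A) = x := by
          funext i
          simp
        rw [this])
  exact (@StrongHomClass.realize_sentence L A A S (tr S σ) _ _ _ e φ).1 hS

private lemma tr_aut {L : FirstOrder.Language.{0, 0}} {A : Type} (S : L.Structure A)
    (σ σ' : Equiv.Perm A) (h : tr S σ' = tr S σ) : σ'⁻¹ * σ ∈ @autSub L A S := by
  have h1 : ∀ (n : ℕ) (f : L.Functions n) (v : Fin n → A),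
      σ' (S.funMap f (⇑σ'⁻¹ ∘ v)) = σ (S.funMap f (⇑σ⁻¹ ∘ v)) := by
    intro n f v
    have := congrArg (fun T : L.Structure A => T.funMap f v) h
    exact this
  have h2 : ∀ (n : ℕ) (r : L.Relations n) (v : Fin n → A),
      S.RelMap r (⇑σ'⁻¹ ∘ v) ↔ S.RelMap r (⇑σ⁻¹ ∘ v) := by
    intro n r v
    have := congrArg (fun T : L.Structure A => T.RelMap r v) h
    exact Iff.of_eq this
  have e1 : ∀ (n : ℕ) (w : Fin n → A), (⇑σ⁻¹ ∘ (σ ∘ w) : Fin n → A) = w := by
    intro n w
    funext i
    simp
  refine ⟨fun n f w => ?_, fun n r w => ?_⟩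
  · have := h1 n f (σ ∘ w)
    rw [e1] at this
    rw [Equiv.Perm.mul_apply, Equiv.Perm.inv_eq_iff_eq, ← this]
    rfl
  · have := h2 n r (σ ∘ w)
    rw [e1] at this
    exact this

theorem factorial_le {L : FirstOrder.Language.{0, 0}} (hL : FinVoc L) (φ : L.Sentence) (n : ℕ)
    (S : L.Structure (Fin n)) (hS : @Sentence.Realize L (Fin n) S φ) :
    n.factorial ≤ Nat.card {S' : L.Structure (Fin n) // @Sentence.Realize L (Fin n) S' φ} *
      Nat.card (@autSub L (Fin n) S) := by
  classical
  have := finite_str hL (Fin n)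
  let T : Equiv.Perm (Fin n) → {S' : L.Structure (Fin n) // @Sentence.Realize L (Fin n) S' φ} :=
    fun σ => ⟨tr S σ, tr_realize S σ φ hS⟩
  have hT : ∀ σ, T (Function.invFun T (T σ)) = T σ := fun σ => Function.invFun_eq ⟨σ, rfl⟩
  have key : ∀ σ, (Function.invFun T (T σ))⁻¹ * σ ∈ @autSub L (Fin n) S := fun σ =>
    tr_aut S σ _ (congrArg Subtype.val (hT σ))
  let G : Equiv.Perm (Fin n) →
      {S' : L.Structure (Fin n) // @Sentence.Realize L (Fin n) S' φ} × (@autSub L (Fin n) S) :=
    fun σ => (T σ, ⟨(Function.invFun T (T σ))⁻¹ * σ, key σ⟩)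
  have hG : Function.Injective G := by
    intro σ σ' h
    have a1 : T σ = T σ' := congrArg Prod.fst h
    have a2 : (Function.invFun T (T σ))⁻¹ * σ = (Function.invFun T (T σ'))⁻¹ * σ' :=
      congrArg (fun x => (Prod.snd x).1) h
    rw [a1] at a2
    exact mul_left_cancel a2
  have := Nat.card_le_card_of_injective G hG
  rw [Nat.card_prod, Nat.card_eq_fintype_card, Fintype.card_perm, Fintype.card_fin] at this
  exact this

end Pool.Agent.Helper87.AS
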