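import Mathlib

/-!
# Project AS: orbits under pointwise stabilisers, closure, tame permutation groups
-/

set_option autoImplicit false

namespace Pool.Agent.Helper87.AS

open Finset

section perm

variable {Ω : Type} [Fintype Ω] [DecidableEq Ω]

open Classical in
/-- The orbit of `x` under the pointwise stabiliser of `Z` in `H`. -/
noncomputable def orb (H : Subgroup (Equiv.Perm Ω)) (Z : Finset Ω) (x : Ω) : Finset Ω :=
  univ.filter (fun y => ∃ g ∈ H, (∀ z ∈ Z, g z = z) ∧ g x = y)

/-- The pointwise stabiliser of `Z` in `H`. -/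
def fixSub (H : Subgroup (Equiv.Perm Ω)) (Z : Finset Ω) : Subgroup (Equiv.Perm Ω) where
  carrier := {g | g ∈ H ∧ ∀ z ∈ Z, g z = z}
  mul_mem' := by
    rintro g h ⟨hg, hg'⟩ ⟨hh, hh'⟩
    refine ⟨H.mul_mem hg hh, fun z hz => ?_⟩
    rw [Equiv.Perm.mul_apply, hh' z hz, hg' z hz]
  one_mem' := ⟨H.one_mem, fun _ _ => rfl⟩
  inv_mem' := by
    rintro g ⟨hg, hg'⟩
    refine ⟨H.inv_mem hg, fun z hz => ?_⟩
    rw [Equiv.Perm.inv_eq_iff_eq, hg' z hz]

/-- The closure of `Z`: the points whose `H`-orbit has at least `T` elements and whose orbit under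
the pointwise stabiliser of `Z` has at most half as many elements. -/
noncomputable def cl (H : Subgroup (Equiv.Perm Ω)) (T : ℕ) (Z : Finset Ω) : Finset Ω :=
  univ.filter (fun x => T ≤ (orb H ∅ x).card ∧ 2 * (orb H Z x).card ≤ (orb H ∅ x).card)

/-- Sets of at most `s` points have closures of linear size. -/
structure Tame (H : Subgroup (Equiv.Perm Ω)) (T K s : ℕ) : Prop where
  cl_card : ∀ Z : Finset Ω, Z.card ≤ s → (cl H T Z).card ≤ K * Z.card
  big : 4 * (K + 1) ^ 2 * (s + 1) ^ 2 ≤ T

end perm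

end Pool.Agent.Helper87.AS
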