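import Pool.Agent.Helper87.AS.Cl

/-!
# AS-6: the closure operator is degenerate

`Large x` means `T ≤ (orb H ∅ x).card`. Call `V` independent if `v ∉ cl H T (V.erase v)` for `v ∈ V`.

1. `exists_far`: for a large point `a` and `V` with `|V| ≤ s` there is `a' ∈ orb H ∅ a`,
   `a' ∉ cl H T V` (because `|cl H T V| ≤ K * s < T ≤ |orb H ∅ a|`, by `Tame.big`).
   Such an `a'` is large and not in `V` (`self_mem_cl`).
2. `indep_insert`: `V` independent, all its points large, `|V| + 1 ≤ s`, `v'` large, `v' ∉ cl H T V` ⇒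
   `insert v' V` independent: for `v ∈ V` with `v ∈ cl (insert v' (V.erase v))` and
   `v ∉ cl (V.erase v)` exchange (`Tame.exch` with `u := v'`, `w := v`, `Z := V.erase v`) gives
   `v' ∈ cl (insert v (V.erase v)) = cl V`.
3. `degen`. Let `Z' ⊆ Z` be minimal with `w ∈ cl H T Z'`. `Z' ≠ ∅` (`notMem_cl_empty`). If `Z' = {z}`
   we are done. Otherwise `Z' = insert a (insert b Y)` with `a ≠ b` not in `Y`. `Z'` is independent:
   `z ∈ cl (Z'.erase z)` and `w ∈ cl Z' = cl (insert z (Z'.erase z))` would give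
   `w ∈ cl (Z'.erase z)` by `Tame.trans`, against minimality. So `Y`, `insert a Y`, `insert b Y` are
   independent. Let `N = 2 * K + s₁ + 1`. By 1, 2 choose (one after the other) `a_1..a_N ∈ orb H ∅ a` and
   `b_1..b_N ∈ orb H ∅ b` with `U := Y ∪ {a_i} ∪ {b_j}` independent (and all of them distinct); `|U| ≤ s`.
   For `i, j` there is `g ∈ H` fixing `Y` with `g a = a_i`, `g b = b_j`: by `giant` `a_i ∈ orb H Y a`
   (`a, a_i ∉ cl Y`), `g₁ a = a_i`; `g₁ b` and `b_j` are not in `cl (insert a_i Y)` (`cl_image` for the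
   first: `b ∉ cl (insert a Y)`), so `giant` again gives `g₂` fixing `insert a_i Y` with
   `g₂ (g₁ b) = b_j`. Put `w_ij = g w`: `w_ij ∈ cl (Y ∪ {a_i, b_j})`, `w_ij ∉ cl (Y ∪ {a_i})`,
   `w_ij ∉ cl (Y ∪ {b_j})` (`cl_image` and minimality of `Z'`).
   The `N ^ 2` points `w_ij` are distinct: if `v = w_ij = w_i'j'` with `i ≠ i'` (the case `j ≠ j'` is
   symmetric): `v ∈ cl (insert a_i (insert b_j Y))`, `v ∉ cl (insert b_j Y)`, so by `Tame.exch`
   `a_i ∈ cl (insert v (insert b_j Y))`; enlarge the set (`cl_mono`) to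
   `insert v (Y ∪ {b_j, a_i', b_j'})`; as `v ∈ cl (Y ∪ {a_i', b_j'})`, `Tame.trans` gives
   `a_i ∈ cl (Y ∪ {b_j, a_i', b_j'}) ⊆ cl (U.erase a_i)`, against independence of `U`.
   All `w_ij` lie in `cl H T U`, which has at most `K * |U| ≤ K * (|Y| + 2 * N)` points, `|Y| ≤ s₁`, and
   `N ^ 2 = N * (2 * K + s₁ + 1) ≥ 2 * K * N + K * s₁ + 1 > K * (|Y| + 2 * N)`. Contradiction.
   (All sets have at most `|Y| + 2 * N ≤ s₁ + 2 * N` points, `s ≥ s₁ + 2 * N + 2`.)
-/

set_option autoImplicit false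

namespace Pool.Agent.Helper87.AS

open Finset

variable {Ω : Type} [Fintype Ω] [DecidableEq Ω] {H : Subgroup (Equiv.Perm Ω)} {T K s s₁ : ℕ}

theorem Tame.exists_far (h : Tame H T K s) {a : Ω} (ha : T ≤ (orb H ∅ a).card) {V : Finset Ω}
    (hV : V.card ≤ s) : ∃ a' ∈ orb H ∅ a, a' ∉ cl H T V := by
  have h1 : (cl H T V).card ≤ K * s := (h.cl_card V hV).trans (Nat.mul_le_mul_left _ hV)
  have h2 : K * s < T := by
    have h3 := h.big
    have h4 : K * s ≤ (K + 1) * (s + 1) := Nat.mul_le_mul (by omega) (by omega)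
    have h5 : (K + 1) * (s + 1) ≤ ((K + 1) * (s + 1)) * ((K + 1) * (s + 1)) := Nat.le_mul_self _
    have h6 : 4 * (K + 1) ^ 2 * (s + 1) ^ 2 = 4 * (((K + 1) * (s + 1)) * ((K + 1) * (s + 1))) := by
      ring
    have h7 : 0 < (K + 1) * (s + 1) := by positivity
    omega
  exact exists_mem_notMem_of_card_lt_card (h1.trans_lt (h2.trans_le ha))

/-- independence -/
def Indep (H : Subgroup (Equiv.Perm Ω)) (T : ℕ) (V : Finset Ω) : Prop :=
  ∀ v ∈ V, v ∉ cl H T (V.erase v)

theorem Indep.mono {V W : Finset Ω} (hV : Indep H T V) (hW : W ⊆ V) : Indep H T W :=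
  fun v hv hcon => hV v (hW hv) (cl_mono (erase_subset_erase v hW) hcon)

theorem Tame.indep_insert (h : Tame H T K s) {V : Finset Ω} {v' : Ω} (hV : Indep H T V)
    (hVs : V.card + 1 ≤ s) (hv' : T ≤ (orb H ∅ v').card) (hcl : v' ∉ cl H T V) (hn : v' ∉ V) :
    Indep H T (insert v' V) := by
  intro v hv hcon
  by_cases hvv : v = v'
  · subst hvv
    rw [erase_insert hn] at hcon
    exact hcl hcon
  · have hvV : v ∈ V := (mem_insert.1 hv).resolve_left hvv
    rw [erase_insert_of_ne (Ne.symm hvv)] at hcon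
    have hc : (V.erase v).card + 1 ≤ s := by
      have := card_erase_le (s := V) (a := v)
      omega
    have h1 := h.exch hc hv' hcon (hV v hvV)
    rw [insert_erase hvV] at h1
    exact hcl h1

theorem Tame.exists_many (h : Tame H T K s) {a : Ω} (ha : T ≤ (orb H ∅ a).card) {V : Finset Ω}
    (hV : Indep H T V) (hVl : ∀ v ∈ V, T ≤ (orb H ∅ v).card) (N : ℕ) (hN : V.card + N ≤ s) :
    ∃ A : Finset Ω, A ⊆ orb H ∅ a ∧ A.card = N ∧ Disjoint V A ∧ Indep H T (V ∪ A) ∧
      ∀ v ∈ V ∪ A, T ≤ (orb H ∅ v).card := by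
  induction N with
  | zero =>
    refine ⟨∅, empty_subset _, rfl, disjoint_empty_right _, ?_, ?_⟩
    · rw [union_empty]
      exact hV
    · rw [union_empty]
      exact hVl
  | succ N ih =>
    obtain ⟨A, h1, h2, h3, h4, h5⟩ := ih (by omega)
    have hc : (V ∪ A).card = V.card + N := by rw [card_union_of_disjoint h3, h2]
    obtain ⟨a', ha', hf⟩ := h.exists_far ha (V := V ∪ A) (by omega)
    have hla : T ≤ (orb H ∅ a').card := by rwa [orb_eq ha']
    have hn : a' ∉ V ∪ A := fun hc' => hf (self_mem_cl h.two_le hla hc')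
    have hn1 : a' ∉ V := fun hc' => hn (mem_union_left _ hc')
    have hn2 : a' ∉ A := fun hc' => hn (mem_union_right _ hc')
    refine ⟨insert a' A, insert_subset ha' h1, by rw [card_insert_of_notMem hn2, h2], ?_, ?_, ?_⟩
    · rw [disjoint_insert_right]
      exact ⟨hn1, h3⟩
    · rw [union_insert]
      exact h.indep_insert h4 (by omega) hla hf hn
    · intro v hv
      rw [union_insert, mem_insert] at hv
      rcases hv with rfl | hv
      · exact hla
      · exact h5 v hv

theorem Tame.degen (h : Tame H T K s) (hs : s₁ + 2 * (2 * K + s₁ + 1) + 2 ≤ s) {Z : Finset Ω}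
    {w : Ω} (hZ : ∀ z ∈ Z, T ≤ (orb H ∅ z).card) (hZs : Z.card ≤ s₁) (hw : w ∈ cl H T Z) :
    ∃ z ∈ Z, w ∈ cl H T {z} := by
  classical
  -- a minimal subset whose closure contains w
  obtain ⟨Z', hZ', hmin⟩ := exists_min_image (Z.powerset.filter (fun V => w ∈ cl H T V)) card
    ⟨Z, mem_filter.2 ⟨mem_powerset_self Z, hw⟩⟩
  rw [mem_filter, mem_powerset] at hZ'
  obtain ⟨hsub, hwZ'⟩ := hZ'
  have hmin' : ∀ V : Finset Ω, V ⊆ Z' → V.card < Z'.card → w ∉ cl H T V := by
    intro V hV hc hcon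
    have := hmin V (mem_filter.2 ⟨mem_powerset.2 (hV.trans hsub), hcon⟩)
    omega
  have hZ's : Z'.card ≤ s₁ := (card_le_card hsub).trans hZs
  rcases Nat.lt_or_ge 1 Z'.card with h1 | h1
  swap
  · interval_cases hc : Z'.card
    · rw [card_eq_zero] at hc
      subst hc
      exact absurd hwZ' (notMem_cl_empty (by have := h.two_le; omega))
    · obtain ⟨z, rfl⟩ := card_eq_one.1 hc
      exact ⟨z, hsub (mem_singleton_self z), hwZ'⟩
  exfalso
  obtain ⟨a, haZ, b, hbZ, hab⟩ := one_lt_card.1 h1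
  set Y := (Z'.erase a).erase b with hY
  have hbZ2 : b ∈ Z'.erase a := mem_erase.2 ⟨Ne.symm hab, hbZ⟩
  have hZab : insert a (insert b Y) = Z' := by rw [hY, insert_erase hbZ2, insert_erase haZ]
  have hbY : b ∉ Y := by simp [hY]
  have haY : a ∉ Y := by simp [hY]
  have hYc : Y.card + 2 = Z'.card := by
    rw [← hZab, card_insert_of_notMem, card_insert_of_notMem hbY]
    simp [hab, haY]
  have hYsub : Y ⊆ Z' := (erase_subset _ _).trans (erase_subset _ _)
  have hind : Indep H T Z' := by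
    intro v hv hcon
    have hc : (Z'.erase v).card + 1 ≤ s := by
      have := card_erase_le (s := Z') (a := v)
      omega
    have h2 : w ∈ cl H T (insert v (Z'.erase v)) := by rwa [insert_erase hv]
    refine hmin' _ (erase_subset v Z') (card_erase_lt_of_mem hv) (h.trans hc hcon h2)
  have hla : T ≤ (orb H ∅ a).card := hZ a (hsub haZ)
  have hlb : T ≤ (orb H ∅ b).card := hZ b (hsub hbZ)
  have hindY : Indep H T Y := hind.mono hYsub
  have haYcl : a ∉ cl H T Y := by
    intro hcon
    refine hind a haZ (cl_mono ?_ hcon)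
    exact erase_subset _ _
  have hbYcl : b ∉ cl H T (insert a Y) := by
    intro hcon
    refine hind b hbZ (cl_mono ?_ hcon)
    intro x hx
    rw [mem_insert] at hx
    rw [mem_erase]
    rcases hx with rfl | hx
    · exact ⟨hab, haZ⟩
    · exact ⟨fun hc => hbY (hc ▸ hx), hYsub hx⟩
  have hwa : w ∉ cl H T (insert a Y) := by
    refine hmin' _ (insert_subset haZ hYsub) ?_
    rw [card_insert_of_notMem haY]
    omega
  have hwb : w ∉ cl H T (insert b Y) := by
    refine hmin' _ (insert_subset hbZ hYsub) ?_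
    rw [card_insert_of_notMem hbY]
    omega
  set N := 2 * K + s₁ + 1 with hN
  obtain ⟨A, hA1, hA2, hA3, hA4, hA5⟩ := h.exists_many hla hindY
    (fun v hv => hZ v (hsub (hYsub hv))) N (by omega)
  have hYA : (Y ∪ A).card = Y.card + N := by rw [card_union_of_disjoint hA3, hA2]
  obtain ⟨B, hB1, hB2, hB3, hB4, hB5⟩ := h.exists_many hlb hA4 hA5 N (by omega)
  set U := Y ∪ A ∪ B with hU
  have hUc : U.card = Y.card + 2 * N := by rw [hU, card_union_of_disjoint hB3, hYA, hB2]; ring
  have hYU : Y ⊆ U := subset_union_left.trans subset_union_left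
  have hAU : A ⊆ U := subset_union_right.trans subset_union_left
  have hBU : B ⊆ U := subset_union_right
  have hAY : ∀ x ∈ A, x ∉ Y := fun x hx hx' => (disjoint_left.1 hA3) hx' hx
  have hBY : ∀ y ∈ B, y ∉ Y := fun y hy hy' => (disjoint_left.1 hB3) (mem_union_left _ hy') hy
  have hAB : ∀ x ∈ A, ∀ y ∈ B, x ≠ y := fun x hx y hy hxy =>
    (disjoint_left.1 hB3) (mem_union_right _ hx) (hxy ▸ hy)
  -- the points w_xy
  have key : ∀ x ∈ A, ∀ y ∈ B, ∃ v : Ω, v ∈ cl H T (insert x (insert y Y)) ∧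
      v ∉ cl H T (insert x Y) ∧ v ∉ cl H T (insert y Y) := by
    intro x hx y hy
    have hxcl : x ∉ cl H T Y := by
      intro hcon
      refine hB4 x (hAU hx) (cl_mono ?_ hcon)
      intro z hz
      exact mem_erase.2 ⟨fun hc => hAY x hx (hc ▸ hz), hYU hz⟩
    have hycl : y ∉ cl H T (insert x Y) := by
      intro hcon
      refine hB4 y (hBU hy) (cl_mono ?_ hcon)
      intro z hz
      rw [mem_insert] at hz
      rcases hz with rfl | hz
      · exact mem_erase.2 ⟨hAB z hx y hy, hAU hx⟩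
      · exact mem_erase.2 ⟨fun hc => hBY y hy (hc ▸ hz), hYU hz⟩
    obtain ⟨g1, hg1, hg1Y, hg1a⟩ := mem_orb.1 (giant hla (hA1 hx) haYcl hxcl)
    have himg : (insert a Y).image g1 = insert x Y := by
      rw [image_insert, hg1a, image_fix hg1Y]
    have hg1b : g1 b ∉ cl H T (insert x Y) := by
      rw [← himg, cl_image hg1]
      exact hbYcl
    have hmem : g1 b ∈ orb H ∅ b := mem_orb.2 ⟨g1, hg1, by simp, rfl⟩
    have hy2 : y ∈ orb H ∅ (g1 b) := by
      rw [orb_eq hmem]
      exact hB1 hy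
    have hlg : T ≤ (orb H ∅ (g1 b)).card := by rwa [orb_empty_card hg1]
    obtain ⟨g2, hg2, hg2Y, hg2b⟩ := mem_orb.1 (giant hlg hy2 hg1b hycl)
    have hg : g2 * g1 ∈ H := H.mul_mem hg2 hg1
    have hgY : ∀ z ∈ Y, (g2 * g1) z = z := by
      intro z hz
      rw [Equiv.Perm.mul_apply, hg1Y z hz, hg2Y z (mem_insert_of_mem hz)]
    have hga : (g2 * g1) a = x := by
      rw [Equiv.Perm.mul_apply, hg1a, hg2Y x (mem_insert_self _ _)]
    have hgb : (g2 * g1) b = y := by
      rw [Equiv.Perm.mul_apply, hg2b]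
    refine ⟨(g2 * g1) w, ?_, ?_, ?_⟩
    · have e : (insert a (insert b Y)).image (g2 * g1) = insert x (insert y Y) := by
        rw [image_insert, image_insert, hga, hgb, image_fix hgY]
      rw [← e, cl_image hg, hZab]
      exact hwZ'
    · have e : (insert a Y).image (g2 * g1) = insert x Y := by
        rw [image_insert, hga, image_fix hgY]
      rw [← e, cl_image hg]
      exact hwa
    · have e : (insert b Y).image (g2 * g1) = insert y Y := by
        rw [image_insert, hgb, image_fix hgY]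
      rw [← e, cl_image hg]
      exact hwb
  choose! f hf using key
  have hins : ∀ x ∈ U, (U.erase x).card + 1 ≤ s := by
    intro x hx
    rw [card_erase_add_one hx]
    omega
  have hinj : Set.InjOn (fun q : Ω × Ω => f q.1 q.2) (A ×ˢ B : Finset (Ω × Ω)) := by
    rintro ⟨x, y⟩ hq ⟨x', y'⟩ hq' heq
    rw [mem_coe, mem_product] at hq hq'
    obtain ⟨hx, hy⟩ := hq
    obtain ⟨hx', hy'⟩ := hq'
    simp only at hx hy hx' hy' heq
    obtain ⟨k1, k2, k3⟩ := hf x hx y hy
    obtain ⟨k1', k2', k3'⟩ := hf x' hx' y' hy'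
    rw [← heq] at k1' k2' k3'
    by_cases hxx : x = x'
    · by_cases hyy : y = y'
      · rw [hxx, hyy]
      · exfalso
        have hc : (insert x Y).card + 1 ≤ s := by
          have := card_insert_le x Y
          omega
        rw [insert_comm] at k1
        have h2 := h.exch hc (hB5 y (hBU hy)) k1 k2
        have h3 : y ∈ cl H T (insert (f x y) (U.erase y)) := by
          refine cl_mono (insert_subset_insert _ ?_) h2
          intro z hz
          rw [mem_insert] at hz
          rcases hz with rfl | hz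
          · exact mem_erase.2 ⟨hAB z hx y hy, hAU hx⟩
          · exact mem_erase.2 ⟨fun hc => hBY y hy (hc ▸ hz), hYU hz⟩
        have h4 : f x y ∈ cl H T (U.erase y) := by
          refine cl_mono ?_ k1'
          intro z hz
          rw [mem_insert, mem_insert] at hz
          rcases hz with rfl | rfl | hz
          · exact mem_erase.2 ⟨hAB z hx' y hy, hAU hx'⟩
          · exact mem_erase.2 ⟨fun hc => hyy hc.symm, hBU hy'⟩
          · exact mem_erase.2 ⟨fun hc => hBY y hy (hc ▸ hz), hYU hz⟩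
        exact hB4 y (hBU hy) (h.trans (hins y (hBU hy)) h4 h3)
    · exfalso
      have hc : (insert y Y).card + 1 ≤ s := by
        have := card_insert_le y Y
        omega
      have h2 := h.exch hc (hB5 x (hAU hx)) k1 k3
      have h3 : x ∈ cl H T (insert (f x y) (U.erase x)) := by
        refine cl_mono (insert_subset_insert _ ?_) h2
        intro z hz
        rw [mem_insert] at hz
        rcases hz with rfl | hz
        · exact mem_erase.2 ⟨fun hc => hAB x hx z hy hc.symm, hBU hy⟩
        · exact mem_erase.2 ⟨fun hc => hAY x hx (hc ▸ hz), hYU hz⟩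
      have h4 : f x y ∈ cl H T (U.erase x) := by
        refine cl_mono ?_ k1'
        intro z hz
        rw [mem_insert, mem_insert] at hz
        rcases hz with rfl | rfl | hz
        · exact mem_erase.2 ⟨fun hc => hxx hc.symm, hAU hx'⟩
        · exact mem_erase.2 ⟨fun hc => hAB x hx z hy' hc.symm, hBU hy'⟩
        · exact mem_erase.2 ⟨fun hc => hAY x hx (hc ▸ hz), hYU hz⟩
      exact hB4 x (hAU hx) (h.trans (hins x (hAU hx)) h4 h3)
  have hmaps : ∀ q ∈ (A ×ˢ B : Finset (Ω × Ω)), (fun q : Ω × Ω => f q.1 q.2) q ∈ cl H T U := by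
    rintro ⟨x, y⟩ hq
    rw [mem_product] at hq
    obtain ⟨hx, hy⟩ := hq
    simp only at hx hy ⊢
    refine cl_mono ?_ (hf x hx y hy).1
    exact insert_subset (hAU hx) (insert_subset (hBU hy) hYU)
  have hcard := card_le_card_of_injOn _ hmaps hinj
  rw [card_product, hA2, hB2] at hcard
  have hcl := h.cl_card U (by omega)
  rw [hUc] at hcl
  have hYs : Y.card ≤ s₁ := by omega
  have h9 : N * N ≤ K * (s₁ + 2 * N) :=
    hcard.trans (hcl.trans (Nat.mul_le_mul_left _ (by omega)))
  have h10 : N * N = 2 * K * N + (s₁ + 1) * N := by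
    have : N * N = (2 * K + s₁ + 1) * N := by rw [← hN]
    rw [this]
    ring
  have h11 : K * (s₁ + 2 * N) = 2 * K * N + K * s₁ := by ring
  have h12 : (s₁ + 1) * (2 * K + 1) ≤ (s₁ + 1) * N := Nat.mul_le_mul_left _ (by omega)
  have h13 : (s₁ + 1) * (2 * K + 1) = 2 * (K * s₁) + s₁ + 2 * K + 1 := by ring
  have h14 : 0 ≤ K * s₁ := Nat.zero_le _
  omega

end Pool.Agent.Helper87.AS
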