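import Pool.Agent.Helper87.AS.Orb

/-!
# AS-8: induced groups and a descent

`ind H Z e` is the set of the permutations `π` of the indices such that some `g ∈ H` fixing `Z`
pointwise maps `e c` to `e (π c)`.

* `ind_mono`: clear. `ind_card`: `≤ |Perm (Fin k)| = k!`.
* `ind_conj`: if `g₁` realises `π` for `e` then `g * g₁ * g⁻¹` realises `π` for `g ∘ e` and conversely.
* `exists_terminal`: among the pairs `(Z, e)` with `P Z e` and
  `|Z| + R' * log₂ |ind H Z e| ≤ R' * k ^ 2` (there is one: `(∅, e₀)`) choose one with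
  `log₂ |ind H Z e|` minimal. Given `Z'`, `e'`: if `ind H (Z ∪ Z') e' ≠ ind H Z e'` it is a proper
  subgroup, so `2 * |ind H (Z ∪ Z') e'| ≤ |ind H Z e'| ≤ |ind H Z e|`, and
  `|Z ∪ Z'| + R' * log₂ |ind H (Z ∪ Z') e'| ≤ |Z| + R' + R' * (log₂ |ind H Z e| - 1) ≤ R' * k ^ 2`,
  against minimality.
-/

set_option autoImplicit false

namespace Pool.Agent.Helper87.AS

open Finset

variable {Ω : Type} [Fintype Ω] [DecidableEq Ω] {H : Subgroup (Equiv.Perm Ω)} {k : ℕ}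

open Classical in
/-- The permutations of the indices induced by the pointwise stabiliser of `Z`. -/
noncomputable def ind (H : Subgroup (Equiv.Perm Ω)) (Z : Finset Ω) (e : Fin k → Ω) :
    Finset (Equiv.Perm (Fin k)) :=
  univ.filter (fun π => ∃ g ∈ H, (∀ z ∈ Z, g z = z) ∧ ∀ c, g (e c) = e (π c))

theorem mem_ind {Z : Finset Ω} {e : Fin k → Ω} {π : Equiv.Perm (Fin k)} :
    π ∈ ind H Z e ↔ ∃ g ∈ H, (∀ z ∈ Z, g z = z) ∧ ∀ c, g (e c) = e (π c) := by
  unfold ind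
  simp

theorem ind_mono {Z Z' : Finset Ω} (h : Z ⊆ Z') (e : Fin k → Ω) : ind H Z' e ⊆ ind H Z e := by
  intro π hπ
  obtain ⟨g, hg, hg', hg''⟩ := mem_ind.1 hπ
  exact mem_ind.2 ⟨g, hg, fun z hz => hg' z (h hz), hg''⟩

theorem ind_card (Z : Finset Ω) (e : Fin k → Ω) : (ind H Z e).card ≤ k.factorial := by
  have h1 := card_le_univ (ind H Z e)
  rwa [Fintype.card_perm, Fintype.card_fin] at h1

theorem ind_conj {g : Equiv.Perm Ω} (hg : g ∈ H) {Z : Finset Ω} (hZ : ∀ z ∈ Z, g z = z)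
    (e : Fin k → Ω) : ind H Z (fun c => g (e c)) = ind H Z e := by
  ext π
  rw [mem_ind, mem_ind]
  have hZ' : ∀ z ∈ Z, g⁻¹ z = z := by
    intro z hz
    rw [Equiv.Perm.inv_eq_iff_eq, hZ z hz]
  constructor
  · rintro ⟨u, hu, hu', hu''⟩
    refine ⟨g⁻¹ * u * g, H.mul_mem (H.mul_mem (H.inv_mem hg) hu) hg, fun z hz => ?_, fun c => ?_⟩
    · rw [Equiv.Perm.mul_apply, Equiv.Perm.mul_apply, hZ z hz, hu' z hz, hZ' z hz]
    · rw [Equiv.Perm.mul_apply, Equiv.Perm.mul_apply, hu'' c]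
      simp
  · rintro ⟨u, hu, hu', hu''⟩
    refine ⟨g * u * g⁻¹, H.mul_mem (H.mul_mem hg hu) (H.inv_mem hg), fun z hz => ?_, fun c => ?_⟩
    · rw [Equiv.Perm.mul_apply, Equiv.Perm.mul_apply, hZ' z hz, hu' z hz, hZ z hz]
    · simp [hu'' c]

/-- `ind` as a subgroup. -/
noncomputable def indG (H : Subgroup (Equiv.Perm Ω)) (Z : Finset Ω) (e : Fin k → Ω) :
    Subgroup (Equiv.Perm (Fin k)) where
  carrier := {π | π ∈ ind H Z e}
  mul_mem' := by
    intro a b ha hb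
    obtain ⟨g, hg, hg', hg''⟩ := mem_ind.1 ha
    obtain ⟨u, hu, hu', hu''⟩ := mem_ind.1 hb
    refine mem_ind.2 ⟨g * u, H.mul_mem hg hu, fun z hz => ?_, fun c => ?_⟩
    · rw [Equiv.Perm.mul_apply, hu' z hz, hg' z hz]
    · rw [Equiv.Perm.mul_apply, hu'' c, hg'', Equiv.Perm.mul_apply]
  one_mem' := mem_ind.2 ⟨1, H.one_mem, fun _ _ => rfl, fun _ => rfl⟩
  inv_mem' := by
    intro a ha
    obtain ⟨g, hg, hg', hg''⟩ := mem_ind.1 ha
    refine mem_ind.2 ⟨g⁻¹, H.inv_mem hg, fun z hz => ?_, fun c => ?_⟩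
    · rw [Equiv.Perm.inv_eq_iff_eq, hg' z hz]
    · rw [Equiv.Perm.inv_eq_iff_eq, hg'' (a⁻¹ c)]
      simp

theorem mem_indG {Z : Finset Ω} {e : Fin k → Ω} {π : Equiv.Perm (Fin k)} :
    π ∈ indG H Z e ↔ π ∈ ind H Z e := Iff.rfl

theorem card_indG (H : Subgroup (Equiv.Perm Ω)) (Z : Finset Ω) (e : Fin k → Ω) :
    Nat.card (indG H Z e) = (ind H Z e).card := by
  rw [← Nat.card_eq_finsetCard]
  rfl

private theorem two_mul_card {Z Z' : Finset Ω} {e : Fin k → Ω} (h : ind H Z' e ⊆ ind H Z e)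
    (hne : ind H Z' e ≠ ind H Z e) : 2 * (ind H Z' e).card ≤ (ind H Z e).card := by
  have h1 : indG H Z' e ≤ indG H Z e := fun π hπ => h hπ
  have h2 := Subgroup.card_dvd_of_le h1
  rw [card_indG, card_indG] at h2
  obtain ⟨c, hc⟩ := h2
  have h3 : (ind H Z' e).card < (ind H Z e).card :=
    card_lt_card (h.ssubset_of_ne hne)
  have h4 : 2 ≤ c := by
    by_contra hcon
    have h5 : c ≤ 1 := by omega
    have h6 := Nat.mul_le_mul_left (ind H Z' e).card h5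
    omega
  rw [hc]
  calc 2 * (ind H Z' e).card ≤ c * (ind H Z' e).card := Nat.mul_le_mul_right _ h4
    _ = (ind H Z' e).card * c := mul_comm _ _

theorem ind_pos (H : Subgroup (Equiv.Perm Ω)) (Z : Finset Ω) (e : Fin k → Ω) :
    0 < (ind H Z e).card :=
  card_pos.2 ⟨1, mem_ind.2 ⟨1, H.one_mem, fun _ _ => rfl, fun _ => rfl⟩⟩

theorem exists_terminal (H : Subgroup (Equiv.Perm Ω)) (P : Finset Ω → (Fin k → Ω) → Prop)
    (e₀ : Fin k → Ω) (h0 : P ∅ e₀) (R' : ℕ) :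
    ∃ (Z : Finset Ω) (e : Fin k → Ω), P Z e ∧ Z.card ≤ R' * k ^ 2 ∧
      ∀ (Z' : Finset Ω) (e' : Fin k → Ω), P (Z ∪ Z') e' → Z'.card ≤ R' →
        (ind H Z e').card ≤ (ind H Z e).card → ind H (Z ∪ Z') e' = ind H Z e' := by
  classical
  let Q : Finset (Finset Ω × (Fin k → Ω)) := univ.filter
    (fun x => P x.1 x.2 ∧ x.1.card + R' * Nat.log 2 (ind H x.1 x.2).card ≤ R' * k ^ 2)
  have hQ : Q.Nonempty := by
    refine ⟨(∅, e₀), ?_⟩
    rw [mem_filter]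
    refine ⟨mem_univ _, h0, ?_⟩
    rw [card_empty, zero_add]
    refine Nat.mul_le_mul_left _ ?_
    have h1 : (ind H ∅ e₀).card ≤ 2 ^ (k ^ 2) := by
      refine (ind_card _ _).trans ((Nat.factorial_le_pow k).trans ?_)
      calc k ^ k ≤ (2 ^ k) ^ k := Nat.pow_le_pow_left (Nat.lt_two_pow_self).le k
        _ = 2 ^ (k ^ 2) := by rw [← pow_mul, sq]
    calc Nat.log 2 (ind H ∅ e₀).card ≤ Nat.log 2 (2 ^ (k ^ 2)) := Nat.log_mono_right h1
      _ = k ^ 2 := Nat.log_pow (by norm_num) _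
  obtain ⟨x, hx, hmin⟩ := Q.exists_min_image (fun x => Nat.log 2 (ind H x.1 x.2).card) hQ
  obtain ⟨-, hP, hc⟩ := mem_filter.1 hx
  refine ⟨x.1, x.2, hP, by omega, fun Z' e' hP' hZ' he' => ?_⟩
  by_contra hne
  have h2 := two_mul_card (ind_mono subset_union_left e') hne
  have h8 := ind_pos H (x.1 ∪ Z') e'
  have h4 : Nat.log 2 (ind H (x.1 ∪ Z') e').card + 1 ≤ Nat.log 2 (ind H x.1 x.2).card := by
    have h9 : Nat.log 2 (2 * (ind H (x.1 ∪ Z') e').card) =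
        Nat.log 2 (ind H (x.1 ∪ Z') e').card + 1 := by
      rw [mul_comm]
      exact Nat.log_mul_base (by norm_num) h8.ne'
    rw [← h9]
    exact Nat.log_mono_right (h2.trans he')
  have h3 : (x.1 ∪ Z', e') ∈ Q := by
    rw [mem_filter]
    refine ⟨mem_univ _, hP', ?_⟩
    have h5 := Nat.mul_le_mul_left R' h4
    have h6 := card_union_le x.1 Z'
    rw [Nat.mul_add, Nat.mul_one] at h5
    change (x.1 ∪ Z').card + R' * Nat.log 2 (ind H (x.1 ∪ Z') e').card ≤ R' * k ^ 2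
    omega
  have h7 := hmin _ h3
  change Nat.log 2 (ind H x.1 x.2).card ≤ Nat.log 2 (ind H (x.1 ∪ Z') e').card at h7
  omega

end Pool.Agent.Helper87.AS
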