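import Pool.Agent.Helper87.AS.Min
import Pool.Agent.Helper87.AS.ClBound

/-!
# AS-5: large groups contain tame subgroups with a very large orbit

Proof of `exists_tame`. Put `C = 2 / ε`, `δ = ε / 8`, `K = ⌈2 * C / δ⌉₊` (depends on `ε` only). Given `s`,
`c` let `n = Fintype.card Ω` be large, `L = log n`, `T = ⌈n ^ δ⌉₊` (so `n ^ δ ≤ T ≤ 2 * n ^ δ`). For
`n ≥ n₀` (all by `Filter.eventually_atTop` arguments): `4 * (K + 1) ^ 2 * (s + 1) ^ 2 ≤ n ^ δ ≤ T`,
`log (2 * C * L * s) ≤ δ * L / 2` (e.g. `2 * C * s * log n ≤ n ^ (δ / 2)`; the case `s = 0` is trivial as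
`Real.log 0 = 0`), `2 ≤ n`. `exists_W G C` gives `W`; `H := fixSub G W ≤ G`; `cl_bound` gives
`Tame H T K s`. Suppose that all orbits `orb H ∅ x` have less than `c * T` points. Then
`|H| ≤ (c * T) ^ n` (`card_le_pow`) and `|G| ≤ n ^ |W| * |H|` (`card_le_fixSub`), `|W| ≤ n / C = ε * n / 2`,
so `(n!) ^ ε ≤ n ^ (ε * n / 2) * (c * T) ^ n`; with `n! ≥ (n / e) ^ n`
(`Nat.factorial_lt`/`Real.exp`: e.g. `n ^ n / n! ≤ exp n` from `Real.pow_div_factorial_le_exp`) the `n`-th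
roots give `(n / e) ^ ε ≤ n ^ (ε / 2) * 2 * c * n ^ (ε / 8)`, i.e. `n ^ (3 * ε / 8) ≤ 2 * c * e ^ ε`,
false for `n ≥ n₀`. (If `Ω` is nonempty there is then an `x₀` with `c * T ≤ |orb H ∅ x₀|`.)
-/

set_option autoImplicit false

namespace Pool.Agent.Helper87.AS

open Finset

/-- The real asymptotics used in `exists_tame`. -/
private theorem asym (ε : ℝ) (hε : 0 < ε) (A B : ℝ) (hB : 0 ≤ B) (D : ℝ) :
    ∃ n₀ : ℕ, ∀ n : ℕ, n₀ ≤ n → 2 ≤ n ∧ A ≤ (n : ℝ) ^ (ε / 8) ∧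
      B * Real.log n ≤ (n : ℝ) ^ (ε / 8 / 2) ∧ D < 3 / 8 * ε * Real.log n := by
  have h1 : ∀ᶠ n : ℕ in Filter.atTop, A ≤ (n : ℝ) ^ (ε / 8) :=
    ((tendsto_rpow_atTop (by positivity : 0 < ε / 8)).comp
      tendsto_natCast_atTop_atTop).eventually_ge_atTop A
  have h2 : ∀ᶠ n : ℕ in Filter.atTop, D / (3 / 8 * ε) < Real.log n :=
    (Real.tendsto_log_atTop.comp tendsto_natCast_atTop_atTop).eventually_gt_atTop _
  have h3 : ∀ᶠ x : ℝ in Filter.atTop, ‖Real.log x‖ ≤ 1 / (B + 1) * ‖x ^ (ε / 8 / 2)‖ :=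
    (isLittleO_log_rpow_atTop (by positivity : 0 < ε / 8 / 2)).def (by positivity)
  have h3' : ∀ᶠ n : ℕ in Filter.atTop,
      ‖Real.log (n : ℝ)‖ ≤ 1 / (B + 1) * ‖(n : ℝ) ^ (ε / 8 / 2)‖ :=
    tendsto_natCast_atTop_atTop.eventually h3
  obtain ⟨n₀, hn₀⟩ := Filter.eventually_atTop.1
    (h1.and (h2.and (h3'.and (Filter.eventually_ge_atTop 2))))
  refine ⟨n₀, fun n hn => ?_⟩
  obtain ⟨a, b, c, d⟩ := hn₀ n hn
  refine ⟨d, a, ?_, ?_⟩
  · have hp : 0 ≤ (n : ℝ) ^ (ε / 8 / 2) := by positivity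
    rw [Real.norm_of_nonneg hp] at c
    have c' : Real.log n ≤ 1 / (B + 1) * (n : ℝ) ^ (ε / 8 / 2) := (le_abs_self _).trans c
    calc B * Real.log n ≤ B * (1 / (B + 1) * (n : ℝ) ^ (ε / 8 / 2)) :=
          mul_le_mul_of_nonneg_left c' hB
      _ = (B / (B + 1)) * (n : ℝ) ^ (ε / 8 / 2) := by ring
      _ ≤ 1 * (n : ℝ) ^ (ε / 8 / 2) := by
          apply mul_le_mul_of_nonneg_right _ hp
          rw [div_le_one (by positivity)]
          linarith
      _ = (n : ℝ) ^ (ε / 8 / 2) := one_mul _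
  · rwa [div_lt_iff₀' (by positivity)] at b

theorem exists_tame (ε : ℝ) (hε : 0 < ε) (hε1 : ε ≤ 1) :
    ∃ K : ℕ, ∀ s c : ℕ, ∃ n₀ : ℕ, ∀ (Ω : Type) [Fintype Ω] [DecidableEq Ω]
      (G : Subgroup (Equiv.Perm Ω)), n₀ ≤ Fintype.card Ω →
      ((Fintype.card Ω).factorial : ℝ) ^ ε ≤ Nat.card G →
      ∃ (H : Subgroup (Equiv.Perm Ω)) (T : ℕ) (x₀ : Ω), H ≤ G ∧ Tame H T K s ∧
        c * T ≤ (orb H ∅ x₀).card := by
  refine ⟨⌈2 * (2 / ε) / (ε / 8)⌉₊, fun s c => ?_⟩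
  set K : ℕ := ⌈2 * (2 / ε) / (ε / 8)⌉₊ with hK
  have hC : 0 < 2 / ε := by positivity
  obtain ⟨n₀, hn₀⟩ := asym ε hε (4 * ((K : ℝ) + 1) ^ 2 * ((s : ℝ) + 1) ^ 2)
    (2 * (2 / ε) * s) (by positivity) (ε + Real.log 2 + Real.log c)
  refine ⟨n₀, fun Ω _ _ G hn hG => ?_⟩
  set n : ℕ := Fintype.card Ω with hndef
  obtain ⟨h2, hA, hB, hD⟩ := hn₀ n hn
  have hn1 : (1 : ℝ) < n := by exact_mod_cast h2
  have hn0 : (0 : ℝ) < n := by linarith
  set L : ℝ := Real.log n with hL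
  have hL0 : 0 < L := Real.log_pos hn1
  obtain ⟨W, hW1, hW2⟩ := exists_W G (2 / ε) hC h2
  set T : ℕ := ⌈(n : ℝ) ^ (ε / 8)⌉₊ with hT
  have hT1 : (n : ℝ) ^ (ε / 8) ≤ T := Nat.le_ceil _
  have hp1 : (1 : ℝ) ≤ (n : ℝ) ^ (ε / 8) := Real.one_le_rpow hn1.le (by positivity)
  have hT2 : (T : ℝ) ≤ 2 * (n : ℝ) ^ (ε / 8) := by
    have := Nat.ceil_lt_add_one (a := (n : ℝ) ^ (ε / 8)) (by positivity)
    linarith
  have hTpos : (0 : ℝ) < T := by linarith
  have hlogT : ε / 8 * L ≤ Real.log T := by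
    have := Real.log_le_log (by positivity) hT1
    rwa [Real.log_rpow hn0] at this
  have hlogT2 : Real.log T ≤ Real.log 2 + ε / 8 * L := by
    have := Real.log_le_log hTpos hT2
    rwa [Real.log_mul (by norm_num) (by positivity), Real.log_rpow hn0] at this
  have htame : Tame (fixSub G W) T K s := by
    refine ⟨fun Z hZ => ?_, ?_⟩
    · refine cl_bound (C := 2 / ε) (δ := ε / 8) (L := L) hC (by positivity) hL0
        (by exact_mod_cast hp1.trans hT1)
        hlogT ?_ (Nat.le_ceil _) hW2 Z hZ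
      rcases Nat.eq_zero_or_pos s with rfl | hs
      · simp only [Nat.cast_zero, mul_zero, Real.log_zero]
        positivity
      · have hs' : (0 : ℝ) < s := by exact_mod_cast hs
        have h5 : 2 * (2 / ε) * L * s ≤ (n : ℝ) ^ (ε / 8 / 2) := by
          calc 2 * (2 / ε) * L * s = 2 * (2 / ε) * s * L := by ring
            _ ≤ _ := hB
        have h6 := Real.log_le_log (by positivity) h5
        rw [Real.log_rpow hn0] at h6
        calc Real.log (2 * (2 / ε) * L * s) ≤ ε / 8 / 2 * L := h6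
          _ = ε / 8 * L / 2 := by ring
    · have : (4 * ((K : ℝ) + 1) ^ 2 * ((s : ℝ) + 1) ^ 2) ≤ T := hA.trans hT1
      exact_mod_cast this
  have hΩ : Nonempty Ω := by
    rw [← Fintype.card_pos_iff]
    omega
  by_contra hcon
  push Not at hcon
  have hlt : ∀ x : Ω, (orb (fixSub G W) ∅ x).card < c * T := fun x =>
    hcon (fixSub G W) T x (fun g hg => hg.1) htame
  obtain ⟨x⟩ := hΩ
  have hcT : 0 < c * T := lt_of_le_of_lt (Nat.zero_le _) (hlt x)
  have hc : 0 < c := Nat.pos_of_mul_pos_right hcT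
  have hc' : (0 : ℝ) < c := by exact_mod_cast hc
  have h7 : Nat.card (fixSub G W) ≤ (c * T) ^ n := card_le_pow fun x => (hlt x).le
  have h8 : Nat.card G ≤ n ^ W.card * Nat.card (fixSub G W) := card_le_fixSub G W
  have h9 : (Nat.card G : ℝ) ≤ (n : ℝ) ^ W.card * ((c : ℝ) * T) ^ n := by
    have : Nat.card G ≤ n ^ W.card * (c * T) ^ n := h8.trans (Nat.mul_le_mul_left _ h7)
    exact_mod_cast this
  have hfac : (0 : ℝ) < (n.factorial : ℝ) := by exact_mod_cast Nat.factorial_pos n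
  have h10 : ε * Real.log n.factorial ≤ W.card * L + n * (Real.log c + Real.log T) := by
    have := Real.log_le_log (by positivity) (hG.trans h9)
    rw [Real.log_rpow hfac, Real.log_mul (by positivity) (by positivity), Real.log_pow,
      Real.log_pow, Real.log_mul hc'.ne' hTpos.ne'] at this
    exact this
  have h11 : n * L - Real.log n.factorial ≤ n := by
    have h := Real.pow_div_factorial_le_exp (n : ℝ) hn0.le n
    have h' := Real.log_le_log (by positivity) h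
    rw [Real.log_exp, Real.log_div (by positivity) hfac.ne', Real.log_pow] at h'
    exact h'
  have h12 : (W.card : ℝ) ≤ ε / 2 * n := by
    have h : 2 / ε * (W.card : ℝ) ≤ n := hW1
    have h' : ε / 2 * (2 / ε * (W.card : ℝ)) ≤ ε / 2 * n :=
      mul_le_mul_of_nonneg_left h (by positivity)
    have h'' : ε / 2 * (2 / ε * (W.card : ℝ)) = W.card := by field_simp
    linarith
  have h13 : (W.card : ℝ) * L ≤ ε / 2 * n * L := mul_le_mul_of_nonneg_right h12 hL0.le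
  have h14 : (n : ℝ) * (Real.log c + Real.log T) ≤ n * (Real.log c + (Real.log 2 + ε / 8 * L)) :=
    mul_le_mul_of_nonneg_left (by linarith) hn0.le
  have h15 : ε * (n * L - n) ≤ ε * Real.log n.factorial :=
    mul_le_mul_of_nonneg_left (by linarith) hε.le
  have h16 : (n : ℝ) * (3 / 8 * ε * L) ≤ n * (ε + Real.log 2 + Real.log c) := by
    nlinarith [h10, h13, h14, h15]
  have h17 := le_of_mul_le_mul_left h16 hn0
  linarith

end Pool.Agent.Helper87.AS
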