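import Pool.Agent.Helper87.AS.Piece
import Pool.Agent.Helper87.AS.Desc

/-!
# AS-9: local symmetry of tame groups

Proof of `Tame.symmetry`. Let `O = orb H ∅ x₀` (all its points are very large: `orb_eq`), `R' = R + M * K`,
`k = |pc H T x₀|`. `1 ≤ k ≤ K` (`self_mem_pc`, `pc_card`); all points of `O` have pieces of `k` points
(`pc_image`). Let `P Z e` say: there is `x ∈ O` with `e` injective, `Set.range e = pc H T x` and
no `e c` in `Z`. `P ∅ e₀` for an enumeration `e₀` of `pc H T x₀`. `exists_terminal` gives `Z₀`, `e`, a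
point `x₁ ∈ O` with `Set.range e = pc H T x₁`, `|Z₀| ≤ R' * k ^ 2 ≤ R' * K ^ 2`.
* Choose `x 0, …, x (M - 1) ∈ O` one after the other with `x i ∉ cl (Z₀ ∪ {x j : j < i})`
  (`Tame.exists_far`, `|Z₀| + M ≤ s`). Then `z ∉ pc H T (x i)` for `z ∈ Z₀` (otherwise `z` is large and
  `x i ∈ pc H T z ⊆ cl Z₀` by `pc_symm`, `cl_mono`), and `x j ∉ pc H T (x i)` for `i ≠ j`; so the pieces of
  the `x i` are pairwise disjoint (`pc_eq`) and disjoint from `Z₀`.
* `Tame.mult` with `m = 1`: `g i ∈ H` fixing `Z₀` with `g i x₁ = x i`. Put `p i c = g i (e c)`; it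
  enumerates `pc H T (x i)` (`pc_image`). Injectivity of `p`: pieces are disjoint.
* Let `τ`, `Z` be given, `|Z| ≤ R`, `Z` disjoint from all `p i c`. `Tame.mult` (with the set `Z₀ ∪ Z`,
  `y i = x (τ i)`): `h ∈ H` fixing `Z₀ ∪ Z` with `h (x i) = x (τ i)`, so `h` maps the piece of
  `x i` onto the piece of `x (τ i)`. For each `i` let `Z' = Z ∪ (all p j c with j ≠ τ i)`,
  `|Z'| ≤ R + M * K = R'`, `e' = p (τ i)`: `P (Z₀ ∪ Z') e'` holds, and
  `ind H Z₀ e' = ind H Z₀ e` by `ind_conj`, so `ind H (Z₀ ∪ Z') e' = ind H Z₀ e'`. The element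
  `g (τ i) * (g i)⁻¹ * h⁻¹ ∈ H` fixes `Z₀` and maps `h (p i c)` to `p (τ i) c`. With `π` the permutation
  given by `h (p i c) = p (τ i) (π c)`, `π⁻¹ ∈ ind H Z₀ e'`; so there is `u i ∈ H` fixing
  `Z₀ ∪ Z'` with `u i (h (p i c)) = p (τ i) c`.
* Apply all `u i` one after the other (induction on a finset `S` of indices: there is
  `g_S ∈ H` fixing `Z` with `g_S (h (p i c)) = p (τ i) c` for `i ∈ S`, and `g_S (h (p i c)) = h (p i c)` for
  `i ∉ S`; `u i` fixes all `p j c`, `j ≠ τ i`). The result is `g = g_univ * h`.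
-/

set_option autoImplicit false

namespace Pool.Agent.Helper87.AS

open Finset

variable {Ω : Type} [Fintype Ω] [DecidableEq Ω] {H : Subgroup (Equiv.Perm Ω)} {T K s s₁ : ℕ}

theorem Tame.symmetry (h : Tame H T K s) {M R : ℕ}
    (hs₁ : (R + M * K) * K ^ 2 + R + M + 1 ≤ s₁)
    (hs : s₁ + 2 * (2 * K + s₁ + 1) + 2 ≤ s) {x₀ : Ω}
    (hx₀ : (4 * K * (s + 1) + 1) * T ≤ (orb H ∅ x₀).card) :
    ∃ (k : ℕ) (p : Fin M → Fin k → Ω), k = (pc H T x₀).card ∧ 1 ≤ k ∧ k ≤ K ∧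
      (∀ i c j d, p i c = p j d → i = j ∧ c = d) ∧
      ∀ (τ : Equiv.Perm (Fin M)) (Z : Finset Ω), Z.card ≤ R → (∀ i c, p i c ∉ Z) →
        ∃ g ∈ H, (∀ z ∈ Z, g z = z) ∧ ∀ i c, g (p i c) = p (τ i) c := by
  classical
  have hT2 := h.two_le
  have hs1 : 1 ≤ s := by omega
  have hs2 : 2 ≤ s := by omega
  have hlarge : T ≤ (orb H ∅ x₀).card :=
    le_trans (Nat.le_mul_of_pos_left T (by omega)) hx₀
  have hlO : ∀ x ∈ orb H ∅ x₀, T ≤ (orb H ∅ x).card := fun x hx => by rwa [orb_eq hx]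
  have hk1 : 1 ≤ (pc H T x₀).card := card_pos.2 ⟨x₀, h.self_mem_pc hlarge⟩
  have hkK : (pc H T x₀).card ≤ K := h.pc_card hs1 x₀
  obtain ⟨k, hk⟩ : ∃ k, k = (pc H T x₀).card := ⟨_, rfl⟩
  rw [← hk] at hk1 hkK
  obtain ⟨P, hPdef⟩ : ∃ P : Finset Ω → (Fin k → Ω) → Prop, P = fun Z e =>
      ∃ x ∈ orb H ∅ x₀, Function.Injective e ∧ (∀ y, y ∈ pc H T x ↔ ∃ c, e c = y) ∧
        ∀ c, e c ∉ Z := ⟨_, rfl⟩
  have hen : ∃ e₀ : Fin k → Ω, Function.Injective e₀ ∧ ∀ y, y ∈ pc H T x₀ ↔ ∃ c, e₀ c = y := by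
    subst hk
    refine ⟨fun c => ((pc H T x₀).equivFin.symm c : Ω), ?_, ?_⟩
    · intro a b hab
      exact (pc H T x₀).equivFin.symm.injective (Subtype.ext hab)
    · intro y
      constructor
      · intro hy
        exact ⟨(pc H T x₀).equivFin ⟨y, hy⟩, by simp⟩
      · rintro ⟨c, rfl⟩
        exact ((pc H T x₀).equivFin.symm c).2
  obtain ⟨e₀, he₀i, he₀r⟩ := hen
  have hP0 : P ∅ e₀ := by
    rw [hPdef]
    exact ⟨x₀, orb_self H ∅ x₀, he₀i, he₀r, fun c => notMem_empty _⟩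
  obtain ⟨Z₀, e, hPe, hZ₀, hterm⟩ := exists_terminal H P e₀ hP0 (R + M * K)
  have hPe' := hPe
  rw [hPdef] at hPe'
  obtain ⟨x₁, hx₁, hei, her, heZ⟩ := hPe'
  have hZ₀' : Z₀.card + R + M + 1 ≤ s₁ := by
    have h1 : (R + M * K) * k ^ 2 ≤ (R + M * K) * K ^ 2 :=
      Nat.mul_le_mul_left _ (Nat.pow_le_pow_left hkK 2)
    omega
  have hss₁ : s₁ ≤ s := by omega
  -- far points
  have hfar : ∀ V : Finset Ω, ∃ a : Ω, V.card ≤ s → a ∈ orb H ∅ x₀ ∧ a ∉ cl H T V := by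
    intro V
    by_cases hV : V.card ≤ s
    · obtain ⟨a, ha, ha'⟩ := h.exists_far hlarge hV
      exact ⟨a, fun _ => ⟨ha, ha'⟩⟩
    · exact ⟨x₀, fun hc => absurd hc hV⟩
  choose f hf using hfar
  obtain ⟨V, hV0, hVs⟩ : ∃ V : ℕ → Finset Ω, V 0 = Z₀ ∧ ∀ m, V (m + 1) = insert (f (V m)) (V m) :=
    ⟨fun m => Nat.rec Z₀ (fun _ V => insert (f V) V) m, rfl, fun _ => rfl⟩
  have hVc : ∀ m, (V m).card ≤ Z₀.card + m := by
    intro m
    induction m with
    | zero => rw [hV0]; simp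
    | succ m ih =>
      rw [hVs]
      have := card_insert_le (f (V m)) (V m)
      omega
  have hVmono : ∀ i j, i ≤ j → V i ⊆ V j := by
    intro i j hij
    induction j, hij using Nat.le_induction with
    | base => exact Subset.refl _
    | succ j _ ih =>
      rw [hVs]
      exact ih.trans (subset_insert _ _)
  obtain ⟨x, hxdef⟩ : ∃ x : Fin M → Ω, ∀ i : Fin M, x i = f (V (i : ℕ)) :=
    ⟨fun i => f (V (i : ℕ)), fun _ => rfl⟩
  have hxO : ∀ i, x i ∈ orb H ∅ x₀ := by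
    intro i
    rw [hxdef]
    refine (hf (V i) ?_).1
    have := hVc i
    have := i.2
    omega
  have hxcl : ∀ i : Fin M, x i ∉ cl H T (V (i : ℕ)) := by
    intro i
    rw [hxdef]
    refine (hf (V i) ?_).2
    have := hVc i
    have := i.2
    omega
  have hxl : ∀ i, T ≤ (orb H ∅ (x i)).card := fun i => hlO _ (hxO i)
  have hxV : ∀ i j : Fin M, i < j → x i ∈ V j := by
    intro i j hij
    have h1 : x i ∈ V (i + 1) := by
      rw [hVs, hxdef]
      exact mem_insert_self _ _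
    exact hVmono _ _ (by have := Fin.lt_def.1 hij; omega) h1
  have hZ₀V : ∀ i : Fin M, Z₀ ⊆ V i := by
    intro i
    have := hVmono 0 i (Nat.zero_le _)
    rwa [hV0] at this
  have hxZ₀ : ∀ i, ∀ z ∈ Z₀, z ∉ pc H T (x i) := by
    intro i z hz hcon
    have h1 : x i ∈ pc H T z := h.pc_symm hs1 (hxl i) hcon
    refine hxcl i (cl_mono ?_ h1)
    exact singleton_subset_iff.2 (hZ₀V i hz)
  have hxx : ∀ i j, i ≠ j → x j ∉ pc H T (x i) := by
    intro i j hij hcon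
    rcases lt_or_gt_of_ne hij with hlt | hgt
    · refine hxcl j (cl_mono ?_ hcon)
      exact singleton_subset_iff.2 (hxV i j hlt)
    · have h1 : x i ∈ pc H T (x j) := h.pc_symm hs1 (hxl i) hcon
      refine hxcl i (cl_mono ?_ h1)
      exact singleton_subset_iff.2 (hxV j i hgt)
  have hdisj : ∀ i j w, w ∈ pc H T (x i) → w ∈ pc H T (x j) → i = j := by
    intro i j w hi hj
    by_contra hij
    have h1 := h.pc_eq hs2 (hxl i) hi
    have h2 := h.pc_eq hs2 (hxl j) hj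
    have h3 : pc H T (x j) = pc H T (x i) := h2.symm.trans h1
    refine hxx i j hij ?_
    rw [← h3]
    exact h.self_mem_pc (hxl j)
  have hx₁Z : ∀ z ∈ Z₀, z ∉ pc H T x₁ := by
    intro z hz hcon
    obtain ⟨c, hc⟩ := (her z).1 hcon
    exact heZ c (hc ▸ hz)
  -- the elements g i
  have hg : ∀ i, ∃ g ∈ H, (∀ z ∈ Z₀, g z = z) ∧ g x₁ = x i := by
    intro i
    obtain ⟨g, hg1, hg2, hg3⟩ := h.mult hs hx₀ (m := 1) (fun _ => x₁) (fun _ => x i)
      (fun _ => hx₁) (fun _ => hxO i) (fun a b hab => absurd (Subsingleton.elim a b) hab)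
      (fun a b hab => absurd (Subsingleton.elim a b) hab) (Z := Z₀) (by omega)
      (fun _ => hx₁Z) (fun _ => hxZ₀ i)
    exact ⟨g, hg1, hg2, hg3 0⟩
  choose g hgH hgZ hgx using hg
  obtain ⟨p, hpdef⟩ : ∃ p : Fin M → Fin k → Ω, ∀ i c, p i c = g i (e c) :=
    ⟨fun i c => g i (e c), fun _ _ => rfl⟩
  have hpr : ∀ i y, y ∈ pc H T (x i) ↔ ∃ c, p i c = y := by
    intro i y
    rw [← hgx i, pc_image (hgH i), mem_image]
    constructor
    · rintro ⟨w, hw, rfl⟩
      obtain ⟨c, rfl⟩ := (her w).1 hw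
      exact ⟨c, hpdef i c⟩
    · rintro ⟨c, rfl⟩
      exact ⟨e c, (her _).2 ⟨c, rfl⟩, (hpdef i c).symm⟩
  have hpm : ∀ i c, p i c ∈ pc H T (x i) := fun i c => (hpr i _).2 ⟨c, rfl⟩
  have hpi : ∀ i, Function.Injective (p i) := by
    intro i a b hab
    rw [hpdef, hpdef] at hab
    exact hei ((g i).injective hab)
  have hpinj : ∀ i c j d, p i c = p j d → i = j ∧ c = d := by
    intro i c j d hcd
    have h1 := hpm i c
    have h2 := hpm j d
    rw [← hcd] at h2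
    have h3 := hdisj i j _ h1 h2
    subst h3
    exact ⟨rfl, hpi i hcd⟩
  refine ⟨k, p, hk, hk1, hkK, hpinj, ?_⟩
  intro τ Z hZR hpZ
  have hxZ : ∀ i, ∀ z ∈ Z₀ ∪ Z, z ∉ pc H T (x i) := by
    intro i z hz hcon
    rcases mem_union.1 hz with hz | hz
    · exact hxZ₀ i z hz hcon
    · obtain ⟨c, hc⟩ := (hpr i z).1 hcon
      exact hpZ i c (hc ▸ hz)
  obtain ⟨h', hh'H, hh'Z, hh'x⟩ := h.mult hs hx₀ x (fun i => x (τ i)) hxO (fun i => hxO (τ i)) hxx
    (fun i j hij => hxx (τ i) (τ j) (fun hc => hij (τ.injective hc))) (Z := Z₀ ∪ Z)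
    (by have := card_union_le Z₀ Z; omega) hxZ (fun i => hxZ (τ i))
  have hh'p : ∀ i c, ∃ d, p (τ i) d = h' (p i c) := by
    intro i c
    rw [← hpr, ← hh'x, pc_image hh'H]
    exact mem_image_of_mem _ (hpm i c)
  -- the corrections
  have hu : ∀ i, ∃ u ∈ H, (∀ z ∈ Z, u z = z) ∧ (∀ j c, j ≠ τ i → u (p j c) = p j c) ∧
      ∀ c, u (h' (p i c)) = p (τ i) c := by
    intro i
    obtain ⟨Z', hZ'⟩ : ∃ Z' : Finset Ω, Z' = Z ∪
        ((univ : Finset (Fin M × Fin k)).filter (fun q => q.1 ≠ τ i)).image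
          (fun q => p q.1 q.2) := ⟨_, rfl⟩
    have hZ'c : Z'.card ≤ R + M * K := by
      rw [hZ']
      refine (card_union_le _ _).trans (Nat.add_le_add hZR ?_)
      refine card_image_le.trans ((card_le_univ _).trans ?_)
      rw [Fintype.card_prod, Fintype.card_fin, Fintype.card_fin]
      exact Nat.mul_le_mul_left _ hkK
    have hPZ' : P (Z₀ ∪ Z') (p (τ i)) := by
      rw [hPdef]
      refine ⟨x (τ i), hxO _, hpi _, hpr _, fun c hcon => ?_⟩
      rcases mem_union.1 hcon with hcon | hcon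
      · exact hxZ₀ (τ i) _ hcon (hpm _ c)
      · rw [hZ'] at hcon
        rcases mem_union.1 hcon with hcon | hcon
        · exact hpZ _ _ hcon
        · obtain ⟨q, hq, hqe⟩ := mem_image.1 hcon
          exact (mem_filter.1 hq).2 (hpinj _ _ _ _ hqe).1
    have hpe : p (τ i) = fun c => g (τ i) (e c) := funext fun c => hpdef _ c
    have hcard : (ind H Z₀ (p (τ i))).card ≤ (ind H Z₀ e).card := by
      rw [hpe, ind_conj (hgH (τ i)) (hgZ (τ i)) e]
    have hind := hterm Z' (p (τ i)) hPZ' hZ'c hcard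
    choose π₀ hπ₀ using hh'p i
    have hπi : Function.Injective π₀ := by
      intro a b hab
      have h1 : h' (p i a) = h' (p i b) := by rw [← hπ₀ a, ← hπ₀ b, hab]
      exact hpi i (h'.injective h1)
    obtain ⟨π, hπ⟩ : ∃ π : Equiv.Perm (Fin k), ∀ c, π c = π₀ c :=
      ⟨Equiv.ofBijective π₀ (Finite.injective_iff_bijective.1 hπi), fun _ => rfl⟩
    have hmem : π⁻¹ ∈ ind H Z₀ (p (τ i)) := by
      rw [mem_ind]
      refine ⟨g (τ i) * (g i)⁻¹ * h'⁻¹, H.mul_mem (H.mul_mem (hgH _) (H.inv_mem (hgH _)))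
        (H.inv_mem hh'H), fun z hz => ?_, fun d => ?_⟩
      · have h1 : h'⁻¹ z = z := by
          rw [Equiv.Perm.inv_eq_iff_eq, hh'Z z (mem_union_left _ hz)]
        have h2 : (g i)⁻¹ z = z := by
          rw [Equiv.Perm.inv_eq_iff_eq, hgZ i z hz]
        rw [Equiv.Perm.mul_apply, Equiv.Perm.mul_apply, h1, h2, hgZ _ z hz]
      · obtain ⟨c, rfl⟩ := π.surjective d
        have h1 : h'⁻¹ (p (τ i) (π c)) = p i c := by
          rw [Equiv.Perm.inv_eq_iff_eq, hπ, hπ₀]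
        have h2 : (g i)⁻¹ (p i c) = e c := by
          rw [Equiv.Perm.inv_eq_iff_eq, hpdef]
        rw [Equiv.Perm.mul_apply, Equiv.Perm.mul_apply, h1, h2, ← hpdef]
        simp
    rw [← hind, mem_ind] at hmem
    obtain ⟨u, huH, huZ, hue⟩ := hmem
    refine ⟨u, huH, fun z hz => huZ z ?_, fun j c hj => huZ _ ?_, fun c => ?_⟩
    · rw [hZ']
      exact mem_union_right _ (mem_union_left _ hz)
    · rw [hZ']
      refine mem_union_right _ (mem_union_right _ (mem_image.2 ⟨(j, c), ?_, rfl⟩))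
      exact mem_filter.2 ⟨mem_univ _, hj⟩
    · rw [← hπ₀ c, ← hπ c, hue]
      simp
  choose u huH huZ hup huh using hu
  have hS : ∀ S : Finset (Fin M), ∃ w ∈ H, (∀ z ∈ Z, w z = z) ∧
      (∀ i ∈ S, ∀ c, w (h' (p i c)) = p (τ i) c) ∧
      ∀ i, i ∉ S → ∀ c, w (h' (p i c)) = h' (p i c) := by
    intro S
    induction S using Finset.induction_on with
    | empty =>
      exact ⟨1, H.one_mem, fun _ _ => rfl, fun i hi => absurd hi (notMem_empty _),
        fun _ _ _ => rfl⟩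
    | insert a S ha ih =>
      obtain ⟨w, hwH, hwZ, hwS, hwn⟩ := ih
      refine ⟨u a * w, H.mul_mem (huH a) hwH, fun z hz => ?_, fun i hi c => ?_, fun i hi c => ?_⟩
      · rw [Equiv.Perm.mul_apply, hwZ z hz, huZ a z hz]
      · rw [Equiv.Perm.mul_apply]
        rcases mem_insert.1 hi with hia | hiS
        · rw [hia, hwn a ha c, huh]
        · rw [hwS i hiS c]
          refine hup a _ _ (fun hc => ?_)
          have hia : i = a := τ.injective hc
          exact ha (hia ▸ hiS)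
      · rw [Equiv.Perm.mul_apply]
        have hi1 : i ≠ a := fun hc => hi (hc ▸ mem_insert_self _ _)
        have hi2 : i ∉ S := fun hc => hi (mem_insert_of_mem hc)
        rw [hwn i hi2 c]
        obtain ⟨d, hd⟩ := hh'p i c
        rw [← hd]
        exact hup a _ _ (fun hc => hi1 (τ.injective hc))
  obtain ⟨w, hwH, hwZ, hwS, -⟩ := hS univ
  refine ⟨w * h', H.mul_mem hwH hh'H, fun z hz => ?_, fun i c => ?_⟩
  · rw [Equiv.Perm.mul_apply, hh'Z z (mem_union_right _ hz), hwZ z hz]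
  · rw [Equiv.Perm.mul_apply, hwS i (mem_univ _) c]

end Pool.Agent.Helper87.AS
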