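import Pool.Agent.Helper87.AS.ExTame
import Pool.Agent.Helper87.AS.Sym

/-!
# AS-10: the local symmetry theorem for large permutation groups
-/

set_option autoImplicit false

namespace Pool.Agent.Helper87.AS

theorem local_symmetry (ε : ℝ) (hε : 0 < ε) (hε1 : ε ≤ 1) :
    ∃ K : ℕ, ∀ M R : ℕ, ∃ n₀ : ℕ, ∀ (Ω : Type) [Fintype Ω] [DecidableEq Ω]
      (G : Subgroup (Equiv.Perm Ω)), n₀ ≤ Fintype.card Ω →
      ((Fintype.card Ω).factorial : ℝ) ^ ε ≤ Nat.card G →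
      ∃ (k : ℕ) (p : Fin M → Fin k → Ω), 1 ≤ k ∧ k ≤ K ∧
        (∀ i c j d, p i c = p j d → i = j ∧ c = d) ∧
        ∀ (τ : Equiv.Perm (Fin M)) (Z : Finset Ω), Z.card ≤ R → (∀ i c, p i c ∉ Z) →
          ∃ g ∈ G, (∀ z ∈ Z, g z = z) ∧ ∀ i c, g (p i c) = p (τ i) c := by
  obtain ⟨K, hK⟩ := exists_tame ε hε hε1
  refine ⟨K, fun M R => ?_⟩
  obtain ⟨n₀, hn₀⟩ := hK
    (((R + M * K) * K ^ 2 + R + M + 1) +
      2 * (2 * K + ((R + M * K) * K ^ 2 + R + M + 1) + 1) + 2)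
    (4 * K * ((((R + M * K) * K ^ 2 + R + M + 1) +
      2 * (2 * K + ((R + M * K) * K ^ 2 + R + M + 1) + 1) + 2) + 1) + 1)
  refine ⟨n₀, fun Ω _ _ G hΩ hG => ?_⟩
  obtain ⟨H, T, x₀, hHG, hT, hx₀⟩ := hn₀ Ω G hΩ hG
  obtain ⟨k, p, -, hk1, hkK, hinj, hsym⟩ := hT.symmetry (M := M) (R := R) le_rfl le_rfl hx₀
  refine ⟨k, p, hk1, hkK, hinj, fun τ Z hZ hpZ => ?_⟩
  obtain ⟨g, hg, h1, h2⟩ := hsym τ Z hZ hpZ
  exact ⟨g, hHG hg, h1, h2⟩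

end Pool.Agent.Helper87.AS
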