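import Pool.Agent.Helper87.AS.Orb

/-!
# AS-3: a set whose pointwise stabiliser is almost stable

Proof of `exists_W`. For `W : Finset Ω` let
`f W = ∑ x, log |orb G W x| + C * log n * |W|` (`n = Fintype.card Ω ≥ 2`, so `log n > 0`). Let `W`
minimise `f` over all finsets (`Finset.exists_min_image univ`).
* `f W ≤ f ∅ ≤ n * log n` because orbits have at most `n` points, and all logarithms
  `log |orb G W x|` are `≥ 0` (`orb_pos`), so `C * log n * |W| ≤ n * log n`.
* For every `Z`: `f W ≤ f (W ∪ Z)`, `orb G (W ∪ Z) x = orb (fixSub G W) Z x` and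
  `orb G W x = orb (fixSub G W) ∅ x` (`orb_fixSub`), `|W ∪ Z| ≤ |W| + |Z|`.
-/

set_option autoImplicit false

namespace Pool.Agent.Helper87.AS

open Finset

theorem exists_W {Ω : Type} [Fintype Ω] [DecidableEq Ω] (G : Subgroup (Equiv.Perm Ω)) (C : ℝ)
    (hC : 0 < C) (hn : 2 ≤ Fintype.card Ω) :
    ∃ W : Finset Ω, C * W.card ≤ Fintype.card Ω ∧ ∀ Z : Finset Ω,
      ∑ x : Ω, (Real.log (orb (fixSub G W) ∅ x).card - Real.log (orb (fixSub G W) Z x).card)
        ≤ C * Real.log (Fintype.card Ω) * Z.card := by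
  have hlog : 0 < Real.log (Fintype.card Ω : ℝ) := by
    apply Real.log_pos
    exact_mod_cast (by omega : 1 < Fintype.card Ω)
  obtain ⟨W, -, hW⟩ := Finset.exists_min_image (univ : Finset (Finset Ω))
    (fun W => ∑ x : Ω, Real.log ((orb G W x).card : ℝ) +
      C * Real.log (Fintype.card Ω) * (W.card : ℝ)) ⟨∅, mem_univ _⟩
  refine ⟨W, ?_, fun Z => ?_⟩
  · have h1 := hW ∅ (mem_univ _)
    have h2 : 0 ≤ ∑ x : Ω, Real.log ((orb G W x).card : ℝ) := by
      refine Finset.sum_nonneg fun x _ => Real.log_natCast_nonneg _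
    have h3 : ∑ x : Ω, Real.log ((orb G ∅ x).card : ℝ) ≤
        (Fintype.card Ω : ℝ) * Real.log (Fintype.card Ω : ℝ) := by
      have h4 : ∀ x ∈ (univ : Finset Ω), Real.log ((orb G ∅ x).card : ℝ) ≤
          Real.log (Fintype.card Ω : ℝ) := by
        intro x _
        apply Real.log_le_log
        · exact_mod_cast orb_pos G ∅ x
        · exact_mod_cast card_le_univ _
      have h5 := Finset.sum_le_card_nsmul _ _ _ h4
      rwa [nsmul_eq_mul, card_univ] at h5
    rw [card_empty, Nat.cast_zero, mul_zero, add_zero] at h1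
    have h6 : Real.log (Fintype.card Ω : ℝ) * (C * (W.card : ℝ)) ≤
        Real.log (Fintype.card Ω : ℝ) * (Fintype.card Ω : ℝ) := by
      nlinarith
    exact le_of_mul_le_mul_left h6 hlog
  · have h1 := hW (W ∪ Z) (mem_univ _)
    have h2 : ((W ∪ Z).card : ℝ) ≤ (W.card : ℝ) + (Z.card : ℝ) := by
      exact_mod_cast card_union_le W Z
    simp only [orb_fixSub, union_empty]
    rw [Finset.sum_sub_distrib]
    have h3 : C * Real.log (Fintype.card Ω : ℝ) * ((W ∪ Z).card : ℝ) ≤
        C * Real.log (Fintype.card Ω : ℝ) * ((W.card : ℝ) + (Z.card : ℝ)) :=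
      mul_le_mul_of_nonneg_left h2 (mul_pos hC hlog).le
    linarith

end Pool.Agent.Helper87.AS
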