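import Pool.Agent.Helper87.AS.Defs

/-!
# AS-1: orbits under pointwise stabilisers
-/

set_option autoImplicit false

namespace Pool.Agent.Helper87.AS

open Finset

variable {Ω : Type} [Fintype Ω] [DecidableEq Ω] {H : Subgroup (Equiv.Perm Ω)} {Z Z' : Finset Ω}
  {x y w u : Ω}

theorem mem_orb : y ∈ orb H Z x ↔ ∃ g ∈ H, (∀ z ∈ Z, g z = z) ∧ g x = y := by
  unfold orb
  simp

theorem mem_orb' : y ∈ orb H Z x ↔ ∃ g ∈ fixSub H Z, g x = y := by
  rw [mem_orb]
  constructor
  · rintro ⟨g, h1, h2, h3⟩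
    exact ⟨g, ⟨h1, h2⟩, h3⟩
  · rintro ⟨g, ⟨h1, h2⟩, h3⟩
    exact ⟨g, h1, h2, h3⟩

theorem orb_self (H : Subgroup (Equiv.Perm Ω)) (Z : Finset Ω) (x : Ω) : x ∈ orb H Z x :=
  mem_orb.2 ⟨1, H.one_mem, fun _ _ => rfl, rfl⟩

theorem orb_pos (H : Subgroup (Equiv.Perm Ω)) (Z : Finset Ω) (x : Ω) : 0 < (orb H Z x).card :=
  card_pos.2 ⟨x, orb_self H Z x⟩

theorem orb_symm (h : y ∈ orb H Z x) : x ∈ orb H Z y := by
  obtain ⟨g, hg, hg', rfl⟩ := mem_orb.1 h
  refine mem_orb.2 ⟨g⁻¹, H.inv_mem hg, fun z hz => ?_, by simp⟩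
  rw [Equiv.Perm.inv_eq_iff_eq, hg' z hz]

theorem orb_trans (h : y ∈ orb H Z x) (h' : w ∈ orb H Z y) : w ∈ orb H Z x := by
  obtain ⟨g, hg, hg', rfl⟩ := mem_orb.1 h
  obtain ⟨k, hk, hk', rfl⟩ := mem_orb.1 h'
  refine mem_orb.2 ⟨k * g, H.mul_mem hk hg, fun z hz => ?_, rfl⟩
  rw [Equiv.Perm.mul_apply, hg' z hz, hk' z hz]

theorem orb_eq (h : y ∈ orb H Z x) : orb H Z y = orb H Z x := by
  ext w
  exact ⟨fun h' => orb_trans h h', fun h' => orb_trans (orb_symm h) h'⟩

theorem orb_mono (h : Z ⊆ Z') (x : Ω) : orb H Z' x ⊆ orb H Z x := by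
  intro y hy
  obtain ⟨g, hg, hg', rfl⟩ := mem_orb.1 hy
  exact mem_orb.2 ⟨g, hg, fun z hz => hg' z (h hz), rfl⟩

theorem orb_card_mono (h : Z ⊆ Z') (x : Ω) : (orb H Z' x).card ≤ (orb H Z x).card :=
  card_le_card (orb_mono h x)

/-- equivariance -/
theorem orb_image {g : Equiv.Perm Ω} (hg : g ∈ H) (Z : Finset Ω) (x : Ω) :
    orb H (Z.image g) (g x) = (orb H Z x).image g := by
  ext y
  rw [mem_orb, mem_image]
  constructor
  · rintro ⟨k, hk, hk', rfl⟩
    refine ⟨g⁻¹ (k (g x)), mem_orb.2 ⟨g⁻¹ * k * g, H.mul_mem (H.mul_mem (H.inv_mem hg) hk) hg,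
      fun z hz => ?_, rfl⟩, by simp⟩
    rw [Equiv.Perm.mul_apply, Equiv.Perm.mul_apply, hk' (g z) (mem_image_of_mem g hz)]
    simp
  · rintro ⟨w, hw, rfl⟩
    obtain ⟨k, hk, hk', rfl⟩ := mem_orb.1 hw
    refine ⟨g * k * g⁻¹, H.mul_mem (H.mul_mem hg hk) (H.inv_mem hg), fun z hz => ?_, by simp⟩
    obtain ⟨z', hz', rfl⟩ := mem_image.1 hz
    simp [hk' z' hz']

theorem orb_image_card {g : Equiv.Perm Ω} (hg : g ∈ H) (Z : Finset Ω) (x : Ω) :
    (orb H (Z.image g) (g x)).card = (orb H Z x).card := by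
  rw [orb_image hg, card_image_of_injective _ g.injective]

theorem orb_fixSub (H : Subgroup (Equiv.Perm Ω)) (W Z : Finset Ω) (x : Ω) :
    orb (fixSub H W) Z x = orb H (W ∪ Z) x := by
  ext y
  rw [mem_orb, mem_orb]
  constructor
  · rintro ⟨g, ⟨h1, h2⟩, h3, h4⟩
    refine ⟨g, h1, fun z hz => ?_, h4⟩
    rcases mem_union.1 hz with hz | hz
    · exact h2 z hz
    · exact h3 z hz
  · rintro ⟨g, h1, h2, h3⟩
    exact ⟨g, ⟨h1, fun z hz => h2 z (mem_union_left _ hz)⟩, fun z hz => h2 z (mem_union_right _ hz),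
      h3⟩

/-- orbit-stabiliser -/
theorem card_fixSub (H : Subgroup (Equiv.Perm Ω)) (Z : Finset Ω) (u : Ω) :
    Nat.card (fixSub H Z) = (orb H Z u).card * Nat.card (fixSub H (insert u Z)) := by
  classical
  have h1 : Nat.card (fixSub H Z) = Nat.card (MulAction.orbit (fixSub H Z) u) *
      Nat.card (MulAction.stabilizer (fixSub H Z) u) := by
    rw [← Nat.card_prod]
    exact (Nat.card_congr (MulAction.orbitProdStabilizerEquivGroup (fixSub H Z) u)).symm
  rw [h1]
  congr 1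
  · rw [← Nat.card_eq_finsetCard]
    refine Nat.card_congr (Equiv.subtypeEquivRight fun y => ?_)
    rw [mem_orb', MulAction.mem_orbit_iff]
    constructor
    · rintro ⟨g, rfl⟩
      exact ⟨g, g.2, rfl⟩
    · rintro ⟨g, hg, rfl⟩
      exact ⟨⟨g, hg⟩, rfl⟩
  · refine Nat.card_congr ⟨fun g => ⟨g.1.1, g.1.2.1, fun z hz => ?_⟩,
      fun g => ⟨⟨g.1, g.2.1, fun z hz => g.2.2 z (mem_insert_of_mem hz)⟩,
        g.2.2 u (mem_insert_self _ _)⟩, fun g => rfl, fun g => rfl⟩
    rcases mem_insert.1 hz with rfl | hz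
    · exact g.2
    · exact g.1.2.2 z hz

theorem card_fixSub_pos (H : Subgroup (Equiv.Perm Ω)) (Z : Finset Ω) :
    0 < Nat.card (fixSub H Z) := Nat.card_pos

theorem orb_swap (H : Subgroup (Equiv.Perm Ω)) (Z : Finset Ω) (u w : Ω) :
    (orb H Z u).card * (orb H (insert u Z) w).card =
      (orb H Z w).card * (orb H (insert w Z) u).card := by
  have h1 := card_fixSub H Z u
  have h2 := card_fixSub H (insert u Z) w
  have h3 := card_fixSub H Z w
  have h4 := card_fixSub H (insert w Z) u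
  rw [h2] at h1
  rw [h4, insert_comm u w] at h3
  rw [h3] at h1
  have h5 := card_fixSub_pos H (insert w (insert u Z))
  have h6 : (orb H Z u).card * (orb H (insert u Z) w).card *
      Nat.card (fixSub H (insert w (insert u Z))) =
      (orb H Z w).card * (orb H (insert w Z) u).card *
      Nat.card (fixSub H (insert w (insert u Z))) := by
    rw [mul_assoc, mul_assoc]
    exact h1.symm
  exact Nat.eq_of_mul_eq_mul_right h5 h6

theorem orb_le (H : Subgroup (Equiv.Perm Ω)) (Z : Finset Ω) (u w : Ω) :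
    (orb H Z w).card ≤ (orb H Z u).card * (orb H (insert u Z) w).card := by
  rw [orb_swap]
  exact Nat.le_mul_of_pos_right _ (orb_pos _ _ _)

/-- If all orbits have at most `B` elements then the group has at most `B ^ n` elements. -/
theorem card_le_pow {B : ℕ} (hB : ∀ x, (orb H ∅ x).card ≤ B) :
    Nat.card H ≤ B ^ Fintype.card Ω := by
  have key : ∀ Z : Finset Ω, Nat.card (fixSub H ∅) ≤ B ^ Z.card * Nat.card (fixSub H Z) := by
    intro Z
    induction Z using Finset.induction_on with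
    | empty => simp
    | insert u Z hu ih =>
      rw [card_insert_of_notMem hu]
      refine ih.trans ?_
      rw [card_fixSub H Z u, pow_succ, mul_assoc]
      refine Nat.mul_le_mul_left _ (Nat.mul_le_mul_right _ ?_)
      exact (orb_card_mono (empty_subset _) u).trans (hB u)
  have h1 := key univ
  have h2 : Nat.card (fixSub H univ) = 1 := by
    rw [Nat.card_eq_one_iff_unique]
    refine ⟨⟨fun a b => ?_⟩, ⟨1⟩⟩
    apply Subtype.ext
    apply Equiv.ext
    intro z
    rw [a.2.2 z (mem_univ _), b.2.2 z (mem_univ _)]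
  have h3 : Nat.card (fixSub H ∅) = Nat.card H := by
    refine Nat.card_congr (Equiv.subtypeEquivRight fun g => ?_)
    exact ⟨fun h => h.1, fun h => ⟨h, by simp⟩⟩
  rw [h2, mul_one, h3, card_univ] at h1
  exact h1

theorem card_le_fixSub (H : Subgroup (Equiv.Perm Ω)) (W : Finset Ω) :
    Nat.card H ≤ Fintype.card Ω ^ W.card * Nat.card (fixSub H W) := by
  have h3 : Nat.card (fixSub H ∅) = Nat.card H := by
    refine Nat.card_congr (Equiv.subtypeEquivRight fun g => ?_)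
    exact ⟨fun h => h.1, fun h => ⟨h, by simp⟩⟩
  rw [← h3]
  induction W using Finset.induction_on with
  | empty => simp
  | insert u W hu ih =>
    rw [card_insert_of_notMem hu]
    refine ih.trans ?_
    rw [card_fixSub H W u, pow_succ, mul_assoc]
    exact Nat.mul_le_mul_left _ (Nat.mul_le_mul_right _ (card_le_univ _))

end Pool.Agent.Helper87.AS
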