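import Pool.Agent.Helper87.AS.Degen

/-!
# AS-7: pieces and multiple transitivity on them

`pc H T x = cl H T {x}` is the piece of `x`. `Large x`: `T ≤ (orb H ∅ x).card`; points of a closure are
large (`mem_cl`). A very large point: `(4 * K * (s + 1) + 1) * T ≤ (orb H ∅ x).card`; it is large
and `4 * K * (s + 1) * T ≤ (orb H ∅ x).card`.

* `pc_card`: `Tame.cl_card`. `self_mem_pc`: `self_mem_cl`. `pc_image`: `cl_image` (apply it to
  `g` and `x ∈ Ω` arbitrary; surjectivity of `g`).
* `pc_symm`: `Tame.exch` with `Z = ∅` (`y ∈ cl (insert x ∅)`, `y ∉ cl ∅`).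
* `pc_eq`: if `y ∈ cl {x}` and `w ∈ cl {y}` then `w ∈ cl (insert y {x})` (`cl_mono`), so `w ∈ cl {x}` by
  `Tame.trans`; the other inclusion by `pc_symm`.
* `notMem_cl`: suppose `x ∈ cl H T Z`. By induction on the small points of `Z` (`Tame.small`), `x` is in
  the closure of the set `Z'` of the large points of `Z` (`Z' = Z.filter ..`; induct on the finset of small
  points: `x ∈ cl (Z' ∪ S) → x ∈ cl Z'`). `Tame.degen`: `x ∈ cl {z}` for some `z ∈ Z'`; `pc_symm`
  (`z` is large): `z ∈ cl {x}`. Contradiction.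
* `mult`: induction on `m` (or: find for all `r ≤ m` a `g` with `g (x i) = y i` for `i < r`). Given `g ∈ H`
  fixing `Z` with `g (x i) = y i` for `i < r`: `x r ∉ cl (Z ∪ {x i : i < r})` by `notMem_cl`, so
  `g (x r) ∉ cl (Z ∪ {y i : i < r})` (`cl_image`, the image of `Z` is `Z`), and also
  `y r ∉ cl (Z ∪ {y i : i < r})` by `notMem_cl`; both are in the same orbit of `H`, so `giant` gives
  `g' ∈ H` fixing `Z ∪ {y i : i < r}` with `g' (g (x r)) = y r`.
-/

set_option autoImplicit false

namespace Pool.Agent.Helper87.AS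

open Finset

variable {Ω : Type} [Fintype Ω] [DecidableEq Ω] {H : Subgroup (Equiv.Perm Ω)} {T K s s₁ : ℕ}
  {x y : Ω}

/-- The piece of a point. -/
noncomputable def pc (H : Subgroup (Equiv.Perm Ω)) (T : ℕ) (x : Ω) : Finset Ω := cl H T {x}

theorem Tame.pc_card (h : Tame H T K s) (hs : 1 ≤ s) (x : Ω) : (pc H T x).card ≤ K := by
  have h1 := h.cl_card {x} (by simpa using hs)
  simpa [pc] using h1

theorem Tame.self_mem_pc (h : Tame H T K s) (hx : T ≤ (orb H ∅ x).card) : x ∈ pc H T x :=
  self_mem_cl h.two_le hx (mem_singleton_self x)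

theorem large_of_mem_pc (hy : y ∈ pc H T x) : T ≤ (orb H ∅ y).card :=
  (mem_cl.1 hy).1

theorem Tame.pc_symm (h : Tame H T K s) (hs : 1 ≤ s) (hx : T ≤ (orb H ∅ x).card)
    (hy : y ∈ pc H T x) : x ∈ pc H T y := by
  have h1 : y ∈ cl H T (insert x ∅) := by
    rw [insert_empty_eq]
    exact hy
  have h2 := h.exch (Z := ∅) (by simpa using hs) hx h1
    (notMem_cl_empty (by have := h.two_le; omega))
  rw [insert_empty_eq] at h2
  exact h2

theorem Tame.pc_eq (h : Tame H T K s) (hs : 2 ≤ s) (hx : T ≤ (orb H ∅ x).card)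
    (hy : y ∈ pc H T x) : pc H T y = pc H T x := by
  have key : ∀ u v : Ω, v ∈ pc H T u → pc H T v ⊆ pc H T u := by
    intro u v hv w hw
    refine h.trans (Z := {u}) (u := v) (by simpa using hs) hv ?_
    refine cl_mono ?_ hw
    exact singleton_subset_iff.2 (mem_insert_self _ _)
  exact (key x y hy).antisymm (key y x (h.pc_symm (by omega) hx hy))

theorem pc_image {g : Equiv.Perm Ω} (hg : g ∈ H) (x : Ω) :
    pc H T (g x) = (pc H T x).image g := by
  have key : ∀ w : Ω, g w ∈ pc H T (g x) ↔ w ∈ pc H T x := by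
    intro w
    have h1 := cl_image (T := T) hg {x} w
    rw [image_singleton] at h1
    exact h1
  ext y
  rw [mem_image]
  constructor
  · intro hy
    refine ⟨g⁻¹ y, ?_, by simp⟩
    rw [← key]
    simpa using hy
  · rintro ⟨w, hw, rfl⟩
    exact (key w).2 hw

theorem Tame.notMem_cl (h : Tame H T K s) (hs : s₁ + 2 * (2 * K + s₁ + 1) + 2 ≤ s)
    (hx : (4 * K * (s + 1) + 1) * T ≤ (orb H ∅ x).card) {Z : Finset Ω} (hZ : Z.card ≤ s₁)
    (hp : ∀ z ∈ Z, z ∉ pc H T x) : x ∉ cl H T Z := by
  classical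
  intro hcl
  set Z' := Z.filter (fun z => T ≤ (orb H ∅ z).card) with hZ'
  have hZ'Z : Z' ⊆ Z := filter_subset _ _
  have hx1 : 4 * K * (s + 1) * T ≤ (orb H ∅ x).card := by
    refine le_trans ?_ hx
    exact Nat.mul_le_mul_right _ (Nat.le_succ _)
  have key : ∀ S : Finset Ω, S ⊆ Z → (∀ z ∈ S, (orb H ∅ z).card < T) →
      x ∈ cl H T (Z' ∪ S) → x ∈ cl H T Z' := by
    intro S
    induction S using Finset.induction_on with
    | empty =>
      intro _ _ h1
      rwa [union_empty] at h1
    | insert w S hw ih =>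
      intro h1 h2 h3
      rw [union_insert] at h3
      refine ih ((subset_insert _ _).trans h1) (fun z hz => h2 z (mem_insert_of_mem hz)) ?_
      refine h.small ?_ (h2 w (mem_insert_self _ _)) hx1 h3
      have h4 : (Z' ∪ S).card ≤ Z.card :=
        card_le_card (union_subset hZ'Z ((subset_insert _ _).trans h1))
      omega
  have h5 : Z' ∪ Z.filter (fun z => ¬ T ≤ (orb H ∅ z).card) = Z :=
    filter_union_filter_not_eq _ _
  have h6 : x ∈ cl H T Z' := by
    refine key (Z.filter (fun z => ¬ T ≤ (orb H ∅ z).card)) (filter_subset _ _) ?_ ?_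
    · intro z hz
      exact not_le.1 (mem_filter.1 hz).2
    · rw [h5]
      exact hcl
  obtain ⟨z, hz, hxz⟩ := h.degen hs (fun z hz => (mem_filter.1 hz).2)
    ((card_le_card hZ'Z).trans hZ) h6
  exact hp z (hZ'Z hz) (h.pc_symm (by omega) (mem_filter.1 hz).2 hxz)

theorem Tame.mult (h : Tame H T K s) (hs : s₁ + 2 * (2 * K + s₁ + 1) + 2 ≤ s) {x₀ : Ω}
    (hx₀ : (4 * K * (s + 1) + 1) * T ≤ (orb H ∅ x₀).card) {m : ℕ} (x y : Fin m → Ω)
    (hx : ∀ i, x i ∈ orb H ∅ x₀) (hy : ∀ i, y i ∈ orb H ∅ x₀)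
    (hxx : ∀ i j, i ≠ j → x j ∉ pc H T (x i)) (hyy : ∀ i j, i ≠ j → y j ∉ pc H T (y i))
    {Z : Finset Ω} (hZ : Z.card + m ≤ s₁) (hxZ : ∀ i, ∀ z ∈ Z, z ∉ pc H T (x i))
    (hyZ : ∀ i, ∀ z ∈ Z, z ∉ pc H T (y i)) :
    ∃ g ∈ H, (∀ z ∈ Z, g z = z) ∧ ∀ i, g (x i) = y i := by
  classical
  have key : ∀ r : ℕ, r ≤ m → ∃ g ∈ H, (∀ z ∈ Z, g z = z) ∧
      ∀ i : Fin m, i.1 < r → g (x i) = y i := by
    intro r
    induction r with
    | zero =>
      intro _
      exact ⟨1, H.one_mem, fun _ _ => rfl, fun i hi => absurd hi (Nat.not_lt_zero _)⟩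
    | succ r ih =>
      intro hr
      obtain ⟨g, hg, hgZ, hgx⟩ := ih (by omega)
      set I : Finset (Fin m) := univ.filter (fun i => i.1 < r) with hI
      have hmemI : ∀ i : Fin m, i ∈ I ↔ i.1 < r := by
        intro i
        rw [hI, mem_filter]
        exact ⟨fun h => h.2, fun h => ⟨mem_univ _, h⟩⟩
      have hIc : I.card ≤ r := by
        have h1 : I.card ≤ (range r).card := by
          refine card_le_card_of_injOn (fun i => i.1) ?_ ?_
          · intro i hi
            exact mem_coe.2 (mem_range.2 ((hmemI i).1 hi))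
          · intro i _ j _ hij
            exact Fin.ext hij
        rwa [card_range] at h1
      set j : Fin m := ⟨r, by omega⟩ with hj
      have hcard : ∀ f : Fin m → Ω, (Z ∪ I.image f).card ≤ s₁ := by
        intro f
        have h1 := card_union_le Z (I.image f)
        have h2 : (I.image f).card ≤ I.card := card_image_le
        omega
      have hlarge : ∀ z ∈ orb H ∅ x₀, (4 * K * (s + 1) + 1) * T ≤ (orb H ∅ z).card := by
        intro z hz
        rw [orb_eq hz]
        exact hx₀
      have hne : ∀ i ∈ I, j ≠ i := by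
        intro i hi hji
        have := (hmemI i).1 hi
        rw [← hji] at this
        exact absurd this (lt_irrefl _)
      have hxcl : x j ∉ cl H T (Z ∪ I.image x) := by
        refine h.notMem_cl hs (hlarge _ (hx j)) (hcard x) ?_
        intro z hz
        rcases mem_union.1 hz with hz | hz
        · exact hxZ j z hz
        · obtain ⟨i, hi, rfl⟩ := mem_image.1 hz
          exact hxx j i (hne i hi)
      have hycl : y j ∉ cl H T (Z ∪ I.image y) := by
        refine h.notMem_cl hs (hlarge _ (hy j)) (hcard y) ?_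
        intro z hz
        rcases mem_union.1 hz with hz | hz
        · exact hyZ j z hz
        · obtain ⟨i, hi, rfl⟩ := mem_image.1 hz
          exact hyy j i (hne i hi)
      have himg : (Z ∪ I.image x).image g = Z ∪ I.image y := by
        rw [image_union, image_fix hgZ, image_image]
        congr 1
        refine image_congr ?_
        intro i hi
        exact hgx i ((hmemI i).1 hi)
      have hgxcl : g (x j) ∉ cl H T (Z ∪ I.image y) := by
        rw [← himg, cl_image hg]
        exact hxcl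
      have hTl : T ≤ (orb H ∅ (g (x j))).card := by
        rw [orb_empty_card hg]
        refine le_trans ?_ (hlarge _ (hx j))
        exact Nat.le_mul_of_pos_left _ (Nat.succ_pos _)
      have hmem : y j ∈ orb H ∅ (g (x j)) := by
        have h1 : g (x j) ∈ orb H ∅ x₀ :=
          orb_trans (hx j) (mem_orb.2 ⟨g, hg, by simp, rfl⟩)
        rw [orb_eq h1]
        exact hy j
      obtain ⟨g', hg', hg'Z, hg'x⟩ := mem_orb.1 (giant hTl hmem hgxcl hycl)
      refine ⟨g' * g, H.mul_mem hg' hg, fun z hz => ?_, fun i hi => ?_⟩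
      · rw [Equiv.Perm.mul_apply, hgZ z hz, hg'Z z (mem_union_left _ hz)]
      · rw [Equiv.Perm.mul_apply]
        rcases Nat.lt_succ_iff_lt_or_eq.1 hi with hi | hi
        · rw [hgx i hi]
          exact hg'Z _ (mem_union_right _ (mem_image_of_mem y ((hmemI i).2 hi)))
        · have h1 : i = j := Fin.ext hi
          rw [h1]
          exact hg'x
  obtain ⟨g, h1, h2, h3⟩ := key m le_rfl
  exact ⟨g, h1, h2, fun i => h3 i i.2⟩

end Pool.Agent.Helper87.AS
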