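import Pool.Agent.Helper87.AS.BTDefs

/-!
# AS-11: the blown up structures

Proof of `exists_str`. For `ι : I → Fin M` let `pr ι : BT p I → A`, `pr ι (inl x) = x.1`,
`pr ι (inr (i, c)) = p (ι i) c`. For `y : BT p I` let `ix y : Set I` be `∅` for `inl x` and `{i}` for
`inr (i, c)`; for `v : Fin n → BT p I` let `ixs v = {i | ∃ t, i ∈ ix (v t)}` (at most `n` elements).
For `v` and functions `ι ι' : I → Fin M` injective on `ixs v` (`n ≤ M`) there is a permutation
`τ` of `Fin M` with `ι' i = τ (ι i)` for `i ∈ ixs v` (extend an injective partial map; e.g.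
`Equiv.Perm` extension lemmas such as `Function.Injective.exists_equiv_extend..` /
`Equiv.extendSubtype`/`Finset.exists_equiv_extend_of_card_eq`).

(1) Relations. `(S I).RelMap r v := ∃ ι, Set.InjOn ι (ixs v) ∧ RelMap r (pr ι ∘ v)`; by `Homog.sym`
(`Z` = the set of the `x.1` with `inl x` among the `v t`, `|Z| ≤ n ≤ a ≤ R`; the automorphism `g` satisfies
`g ∘ pr ι ∘ v = pr ι' ∘ v`) this is equivalent to `∀ ι, Set.InjOn ι (ixs v) → RelMap r (pr ι ∘ v)`
(such `ι` exist because `|ixs v| ≤ n ≤ M`).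

(2) Functions. `IsVal f v y :⇔ ix y ⊆ ixs v ∧ ∀ ι, Set.InjOn ι (ixs v) → pr ι y = funMap f (pr ι ∘ v)`.
There is exactly one such `y`. Existence: take some `ι`, `a₀ = funMap f (pr ι ∘ v)`. If `a₀` is not a
`p m c`, take `y = inl a₀`; for another `ι'` use `g` with `Z ∪ {a₀}` (`n + 1 ≤ R`) fixed pointwise. If
`a₀ = p m c` with `m = ι i`, `i ∈ ixs v`: `y = inr (i, c)`, and `g a₀ = p (τ m) c = p (ι' i) c`. If
`m ∉ ι '' ixs v`: as `n + 2 ≤ M` there is `m' ≠ m` not in `ι '' ixs v`; `τ = swap m m'` and `Z` give an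
automorphism `g` fixing all `pr ι (v t)`, so `g a₀ = a₀`, but `g a₀ = p m' c ≠ p m c`. Uniqueness: `pr ι` is
injective on the `y` with `ix y ⊆ ixs v`.
`(S I).funMap f v` := the chosen value.

(3) `Functorial`: if `ι : I → J` is injective and `IsVal f v y` then
`IsVal f (bmap p ι ∘ v) (bmap p ι y)` (`pr ι' (bmap p ι y) = pr (ι' ∘ ι) y`,
`ixs (bmap p ι ∘ v) = ι '' ixs v`); for the relations: `∀ ι'` form for `J` to `∃`: an injective-on-`ixs v`
map `I → Fin M` extends along `ι` to `J` (use `Function.extend`).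

(4) `e = pr id : BT p (Fin M) → A` is bijective (`Homog.inj`), and `id` is injective, so
`e ((S (Fin M)).funMap f v) = funMap f (e ∘ v)` and the same for relations.
-/

set_option autoImplicit false

namespace Pool.Agent.Helper87.AS

open FirstOrder FirstOrder.Language

namespace Struct

variable {A : Type} {M k : ℕ} {p : Fin M → Fin k → A}

/-- The projection given by a map of the index set. -/
def pr (p : Fin M → Fin k → A) {I : Type} (ι : I → Fin M) : BT p I → A :=
  Sum.elim Subtype.val (fun x => p (ι x.1) x.2)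

/-- The index of a point. -/
def ix {I : Type} (y : BT p I) : Set I := {i | ∃ c, y = Sum.inr (i, c)}

/-- The indices of a tuple. -/
def ixs {I : Type} {n : ℕ} (v : Fin n → BT p I) : Set I := {i | ∃ t, i ∈ ix (v t)}

/-- The indices of a tuple form a finite set with at most as many elements as the tuple. -/
theorem exists_finset {I : Type} {n : ℕ} (v : Fin n → BT p I) :
    ∃ J : Finset I, J.card ≤ n ∧ ∀ i, i ∈ J ↔ i ∈ ixs v := by
  classical
  refine ⟨Finset.univ.biUnion (fun t => Sum.elim (fun _ => ∅) (fun x => {x.1}) (v t)), ?_, ?_⟩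
  · refine (Finset.card_biUnion_le_card_mul _ _ 1 ?_).trans ?_
    · intro t _
      rcases v t with x | x <;> simp
    · simp
  · intro i
    simp only [Finset.mem_biUnion, Finset.mem_univ, true_and, ixs, ix, Set.mem_ofPred_eq]
    constructor
    · rintro ⟨t, ht⟩
      rcases hv : v t with x | x
      · rw [hv] at ht
        simp at ht
      · rw [hv] at ht
        simp only [Sum.elim_inr, Finset.mem_singleton] at ht
        exact ⟨t, x.2, by rw [hv, ht]⟩
    · rintro ⟨t, c, hc⟩
      exact ⟨t, by rw [hc]; simp⟩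

/-- There is a map to the blocks which is injective on the indices. -/
theorem exists_inj {I : Type} {n : ℕ} (v : Fin n → BT p I) (hn : n ≤ M) (hM : 0 < M) :
    ∃ ι : I → Fin M, Set.InjOn ι (ixs v) := by
  classical
  obtain ⟨J, hJ, hJv⟩ := exists_finset v
  refine ⟨fun i => if h : i ∈ J then Fin.castLE (hJ.trans hn) (J.equivFin ⟨i, h⟩)
    else ⟨0, hM⟩, ?_⟩
  intro i hi j hj hij
  have hi' := (hJv i).2 hi
  have hj' := (hJv j).2 hj
  simp only [hi', hj', dif_pos] at hij
  have h2 := J.equivFin.injective (Fin.castLE_injective _ hij)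
  exact congrArg Subtype.val h2

/-- Two maps injective on the indices differ by a permutation of the blocks. -/
theorem exists_tau {I : Type} {n : ℕ} (v : Fin n → BT p I) {ι ι' : I → Fin M}
    (h : Set.InjOn ι (ixs v)) (h' : Set.InjOn ι' (ixs v)) :
    ∃ τ : Equiv.Perm (Fin M), ∀ i ∈ ixs v, ι' i = τ (ι i) := by
  classical
  obtain ⟨J, hJ, hJv⟩ := exists_finset v
  by_cases hI : Nonempty I
  · let f : Fin M → Fin M := fun m => ι' (Function.invFunOn ι (ixs v) m)
    have hf : ∀ i ∈ ixs v, f (ι i) = ι' i := by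
      intro i hi
      simp only [f]
      rw [h.leftInvOn_invFunOn hi]
    obtain ⟨g, hg⟩ := Finset.exists_equiv_extend_of_card_eq (α := Fin M)
      (t := (Finset.univ : Finset (Fin M))) (by simp) (s := J.image ι) (f := f) (by simp) (by
        intro x hx y hy hxy
        simp only [Finset.coe_image, Set.mem_image, Finset.mem_coe] at hx hy
        obtain ⟨i, hi, rfl⟩ := hx
        obtain ⟨j, hj, rfl⟩ := hy
        rw [hf i ((hJv i).1 hi), hf j ((hJv j).1 hj)] at hxy
        rw [h' ((hJv i).1 hi) ((hJv j).1 hj) hxy])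
    refine ⟨g.trans (Equiv.subtypeUnivEquiv (by simp)), ?_⟩
    intro i hi
    have := hg (ι i) (Finset.mem_image_of_mem _ ((hJv i).2 hi))
    simp only [Equiv.trans_apply, Equiv.subtypeUnivEquiv_apply]
    rw [this, hf i hi]
  · exact ⟨1, fun i => (hI ⟨i⟩).elim⟩

/-- The automorphisms move a tuple from one projection to another. -/
theorem exists_aut {L : FirstOrder.Language.{0, 0}} [L.Structure A] {R : ℕ}
    (h : Homog L A p R) {I : Type} {n : ℕ} (v : Fin n → BT p I) (hn : n + 1 ≤ R)
    {ι ι' : I → Fin M} (τ : Equiv.Perm (Fin M)) (hτ : ∀ i ∈ ixs v, ι' i = τ (ι i)) (a₀ : A) :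
    ∃ g : A ≃[L] A, (g ∘ (pr p ι ∘ v) = pr p ι' ∘ v) ∧ (∀ i c, g (p i c) = p (τ i) c) ∧
      ((∀ i c, p i c ≠ a₀) → g a₀ = a₀) := by
  classical
  let Z1 : Finset A := Finset.univ.biUnion
    (fun t => Sum.elim (fun x => {x.1}) (fun _ => ∅) (v t))
  let Z2 : Finset A := if ∀ i c, p i c ≠ a₀ then {a₀} else ∅
  have h1 : Z1.card ≤ n := by
    refine (Finset.card_biUnion_le_card_mul _ _ 1 ?_).trans ?_
    · intro t _
      rcases v t with x | x <;> simp
    · simp
  have h2 : Z2.card ≤ 1 := by
    simp only [Z2]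
    split_ifs <;> simp
  have hZ : (Z1 ∪ Z2).card ≤ R := (Finset.card_union_le _ _).trans (by omega)
  have hp : ∀ i c, p i c ∉ Z1 ∪ Z2 := by
    intro i c hic
    rcases Finset.mem_union.1 hic with hic | hic
    · obtain ⟨t, _, ht⟩ := Finset.mem_biUnion.1 hic
      rcases hv : v t with x | x
      · rw [hv] at ht
        simp only [Sum.elim_inl, Finset.mem_singleton] at ht
        exact x.2 i c ht
      · rw [hv] at ht
        simp at ht
    · simp only [Z2] at hic
      split_ifs at hic with h3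
      · exact h3 i c (Finset.mem_singleton.1 hic)
      · simp at hic
  obtain ⟨g, hg1, hg2⟩ := h.sym τ (Z1 ∪ Z2) hZ hp
  refine ⟨g, ?_, hg2, ?_⟩
  · funext t
    simp only [Function.comp_apply]
    rcases hv : v t with x | x
    · simp only [pr, Sum.elim_inl]
      refine hg1 _ (Finset.mem_union_left _ (Finset.mem_biUnion.2 ⟨t, Finset.mem_univ _, ?_⟩))
      rw [hv]
      simp
    · simp only [pr, Sum.elim_inr]
      rw [hg2, hτ x.1 ⟨t, x.2, hv⟩]
  · intro h3
    refine hg1 _ (Finset.mem_union_right _ ?_)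
    simp only [Z2]
    rw [if_pos h3]
    simp

theorem pr_bmap {I J : Type} (φ : I → J) (ι : J → Fin M) (y : BT p I) :
    pr p ι (bmap p φ y) = pr p (ι ∘ φ) y := by
  rcases y with y | y <;> rfl

theorem ixs_bmap {I J : Type} (φ : I → J) {n : ℕ} (v : Fin n → BT p I) :
    ixs (bmap p φ ∘ v) = φ '' ixs v := by
  ext j
  simp only [ixs, ix, Set.mem_ofPred_eq, Set.mem_image, Function.comp_apply]
  constructor
  · rintro ⟨t, c, hc⟩
    rcases hv : v t with x | x
    · rw [hv] at hc
      simp [bmap] at hc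
    · rw [hv] at hc
      simp only [bmap, Sum.map_inr, Sum.inr.injEq] at hc
      refine ⟨x.1, ⟨t, x.2, hv⟩, ?_⟩
      exact congrArg Prod.fst hc
  · rintro ⟨i, ⟨t, c, hc⟩, rfl⟩
    refine ⟨t, c, ?_⟩
    rw [hc]
    rfl

theorem injOn_comp {I J : Type} {φ : I → J} (hφ : Function.Injective φ) {n : ℕ}
    {v : Fin n → BT p I} {ι : J → Fin M} (h : Set.InjOn ι (ixs (bmap p φ ∘ v))) :
    Set.InjOn (ι ∘ φ) (ixs v) := by
  rw [ixs_bmap] at h
  exact h.comp hφ.injOn (fun i hi => Set.mem_image_of_mem _ hi)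

/-- The value of a function. -/
def IsVal {L : FirstOrder.Language.{0, 0}} [L.Structure A] {I : Type} {n : ℕ}
    (f : L.Functions n) (v : Fin n → BT p I) (y : BT p I) : Prop :=
  ix y ⊆ ixs v ∧ ∀ ι : I → Fin M, Set.InjOn ι (ixs v) →
    pr p ι y = Structure.funMap f (pr p ι ∘ v)

theorem isVal_unique {L : FirstOrder.Language.{0, 0}} [L.Structure A] {R : ℕ}
    (h : Homog L A p R) {I : Type} {n : ℕ} (hn : n ≤ M) (hM : 0 < M)
    {f : L.Functions n} {v : Fin n → BT p I} {y y' : BT p I} (hy : IsVal f v y)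
    (hy' : IsVal f v y') : y = y' := by
  obtain ⟨ι, hι⟩ := exists_inj v hn hM
  have h1 : pr p ι y = pr p ι y' := (hy.2 ι hι).trans (hy'.2 ι hι).symm
  rcases y with y | y <;> rcases y' with y' | y'
  · simp only [pr, Sum.elim_inl] at h1
    rw [Subtype.ext h1]
  · simp only [pr, Sum.elim_inl, Sum.elim_inr] at h1
    exact absurd h1.symm (y.2 _ _)
  · simp only [pr, Sum.elim_inl, Sum.elim_inr] at h1
    exact absurd h1 (y'.2 _ _)
  · simp only [pr, Sum.elim_inr] at h1
    obtain ⟨h2, h3⟩ := h.inj _ _ _ _ h1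
    have h4 : y.1 = y'.1 := hι (hy.1 ⟨y.2, rfl⟩) (hy'.1 ⟨y'.2, rfl⟩) h2
    rw [show y = y' from Prod.ext h4 h3]

theorem exists_isVal {L : FirstOrder.Language.{0, 0}} [L.Structure A] {R : ℕ}
    (h : Homog L A p R) {I : Type} {n : ℕ} (hM : n + 2 ≤ M) (hR : n + 1 ≤ R)
    (f : L.Functions n) (v : Fin n → BT p I) : ∃ y, IsVal f v y := by
  classical
  obtain ⟨ι, hι⟩ := exists_inj v (by omega) (by omega)
  by_cases hp : ∀ i c, p i c ≠ Structure.funMap f (pr p ι ∘ v)
  · refine ⟨Sum.inl ⟨_, hp⟩, ?_, ?_⟩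
    · rintro i ⟨c, hc⟩
      simp at hc
    · intro ι' hι'
      obtain ⟨τ, hτ⟩ := exists_tau v hι hι'
      obtain ⟨g, hg1, _, hg3⟩ := exists_aut h v hR τ hτ (Structure.funMap f (pr p ι ∘ v))
      have h1 := hg3 hp
      rw [g.map_fun, hg1] at h1
      simp only [pr, Sum.elim_inl]
      exact h1.symm
  · push Not at hp
    obtain ⟨m, c, hmc⟩ := hp
    by_cases hm : ∃ i ∈ ixs v, ι i = m
    · obtain ⟨i, hi, rfl⟩ := hm
      refine ⟨Sum.inr (i, c), ?_, ?_⟩
      · rintro j ⟨c', hc'⟩
        simp only [Sum.inr.injEq, Prod.mk.injEq] at hc'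
        rw [← hc'.1]
        exact hi
      · intro ι' hι'
        obtain ⟨τ, hτ⟩ := exists_tau v hι hι'
        obtain ⟨g, hg1, hg2, _⟩ := exists_aut h v hR τ hτ (Structure.funMap f (pr p ι ∘ v))
        simp only [pr, Sum.elim_inr]
        rw [hτ i hi, ← hg2, hmc, g.map_fun, hg1]
        rfl
    · exfalso
      obtain ⟨J, hJ, hJv⟩ := exists_finset v
      have hcard : (insert m (J.image ι)).card < Fintype.card (Fin M) := by
        rw [Fintype.card_fin]
        have h1 := Finset.card_insert_le m (J.image ι)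
        have h2 : (J.image ι).card ≤ J.card := Finset.card_image_le
        omega
      obtain ⟨m', hm'⟩ : ∃ m', m' ∉ insert m (J.image ι) := by
        by_contra hcon
        push Not at hcon
        have : insert m (J.image ι) = Finset.univ := Finset.eq_univ_of_forall hcon
        rw [this, Finset.card_univ] at hcard
        exact lt_irrefl _ hcard
      have hne : m' ≠ m := fun h1 => hm' (by rw [h1]; exact Finset.mem_insert_self _ _)
      have hτ : ∀ i ∈ ixs v, ι i = Equiv.swap m m' (ι i) := by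
        intro i hi
        rw [Equiv.swap_apply_of_ne_of_ne]
        · exact fun h1 => hm ⟨i, hi, h1⟩
        · intro h1
          apply hm'
          rw [← h1]
          exact Finset.mem_insert_of_mem (Finset.mem_image_of_mem _ ((hJv i).2 hi))
      obtain ⟨g, hg1, hg2, _⟩ := exists_aut h v hR (Equiv.swap m m') hτ
        (Structure.funMap f (pr p ι ∘ v))
      have h1 := hg2 m c
      rw [hmc, g.map_fun, hg1, ← hmc, Equiv.swap_apply_left] at h1
      exact hne (h.inj _ _ _ _ h1).1.symm

theorem rel_iff {L : FirstOrder.Language.{0, 0}} [L.Structure A] {R : ℕ}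
    (h : Homog L A p R) {I : Type} {n : ℕ} (hR : n + 1 ≤ R)
    (r : L.Relations n) (v : Fin n → BT p I) {ι ι' : I → Fin M}
    (hι : Set.InjOn ι (ixs v)) (hι' : Set.InjOn ι' (ixs v))
    (hr : Structure.RelMap r (pr p ι ∘ v)) : Structure.RelMap r (pr p ι' ∘ v) := by
  rcases isEmpty_or_nonempty A with hA | ⟨⟨a₀⟩⟩
  · have : pr p ι ∘ v = pr p ι' ∘ v := by
      funext t
      exact hA.elim (pr p ι (v t))
    rw [← this]
    exact hr
  · obtain ⟨τ, hτ⟩ := exists_tau v hι hι'
    obtain ⟨g, hg1, _, _⟩ := exists_aut h v hR τ hτ a₀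
    rw [← hg1]
    exact (g.map_rel r _).2 hr

end Struct

theorem exists_str {L : FirstOrder.Language.{0, 0}} {A : Type} [L.Structure A] {M k R a : ℕ}
    {p : Fin M → Fin k → A} (h : Homog L A p R)
    (ha : ∀ n, a < n → IsEmpty (L.Functions n) ∧ IsEmpty (L.Relations n))
    (hM : a + 2 ≤ M) (hR : a + 1 ≤ R) :
    ∃ S : ∀ I : Type, L.Structure (BT p I), Functorial p S ∧
      ∃ e : BT p (Fin M) ≃ A,
        (∀ (n : ℕ) (f : L.Functions n) (v : Fin n → BT p (Fin M)),
          e ((S (Fin M)).funMap f v) = Structure.funMap f (e ∘ v)) ∧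
        ∀ (n : ℕ) (r : L.Relations n) (v : Fin n → BT p (Fin M)),
          (S (Fin M)).RelMap r v ↔ Structure.RelMap r (e ∘ v) := by
  classical
  have hfn : ∀ (n : ℕ), L.Functions n → n ≤ a := by
    intro n f
    by_contra hn
    exact (ha n (not_le.1 hn)).1.elim f
  have hrl : ∀ (n : ℕ), L.Relations n → n ≤ a := by
    intro n r
    by_contra hn
    exact (ha n (not_le.1 hn)).2.elim r
  have hex : ∀ (I : Type) (n : ℕ) (f : L.Functions n) (v : Fin n → BT p I),
      ∃ y, Struct.IsVal f v y := by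
    intro I n f v
    have := hfn n f
    exact Struct.exists_isVal h (by omega) (by omega) f v
  let S : ∀ I : Type, L.Structure (BT p I) := fun I =>
    { funMap := fun {n} f v => Classical.choose (hex I n f v)
      RelMap := fun {n} r v => ∃ ι : I → Fin M, Set.InjOn ι (Struct.ixs v) ∧
        Structure.RelMap r (Struct.pr p ι ∘ v) }
  have hS : ∀ (I : Type) (n : ℕ) (f : L.Functions n) (v : Fin n → BT p I),
      Struct.IsVal f v ((S I).funMap f v) := fun I n f v => Classical.choose_spec (hex I n f v)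
  have hSr : ∀ (I : Type) (n : ℕ) (r : L.Relations n) (v : Fin n → BT p I),
      (S I).RelMap r v ↔ ∃ ι : I → Fin M, Set.InjOn ι (Struct.ixs v) ∧
        Structure.RelMap r (Struct.pr p ι ∘ v) := fun I n r v => Iff.rfl
  refine ⟨S, ⟨?_, ?_⟩, ?_⟩
  · intro I J φ hφ n f v
    have hn := hfn n f
    refine Struct.isVal_unique h (f := f) (v := bmap p φ ∘ v) (by omega) (by omega)
      (hS J n f _) ⟨?_, ?_⟩
    · rintro j ⟨c, hc⟩
      rcases hy : (S I).funMap f v with x | x
      · rw [hy] at hc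
        simp [bmap] at hc
      · rw [hy] at hc
        simp only [bmap, Sum.map_inr, Sum.inr.injEq] at hc
        rw [Struct.ixs_bmap]
        refine ⟨x.1, (hS I n f v).1 ⟨x.2, by rw [hy]⟩, ?_⟩
        exact congrArg Prod.fst hc
    · intro ι hι
      rw [Struct.pr_bmap, (hS I n f v).2 _ (Struct.injOn_comp hφ hι)]
      congr 1
      funext t
      exact (Struct.pr_bmap φ ι (v t)).symm
  · intro I J φ hφ n r v
    have hn := hrl n r
    have hcomp : ∀ ι : J → Fin M, Struct.pr p ι ∘ (bmap p φ ∘ v) = Struct.pr p (ι ∘ φ) ∘ v := by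
      intro ι
      funext t
      exact Struct.pr_bmap φ ι (v t)
    rw [hSr, hSr]
    constructor
    · rintro ⟨ι, hι, hr⟩
      exact ⟨ι ∘ φ, Struct.injOn_comp hφ hι, (hcomp ι) ▸ hr⟩
    · rintro ⟨ι, hι, hr⟩
      obtain ⟨ι', hι'⟩ := Struct.exists_inj (bmap p φ ∘ v) (by omega) (by omega)
      refine ⟨ι', hι', ?_⟩
      rw [hcomp]
      exact Struct.rel_iff h (by omega) r v hι (Struct.injOn_comp hφ hι') hr
  · have hbij : Function.Bijective (Struct.pr p (id : Fin M → Fin M)) := by
      constructor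
      · intro y y' h1
        rcases y with y | y <;> rcases y' with y' | y'
        · simp only [Struct.pr, Sum.elim_inl] at h1
          rw [Subtype.ext h1]
        · simp only [Struct.pr, Sum.elim_inl, Sum.elim_inr] at h1
          exact absurd h1.symm (y.2 _ _)
        · simp only [Struct.pr, Sum.elim_inl, Sum.elim_inr] at h1
          exact absurd h1 (y'.2 _ _)
        · simp only [Struct.pr, Sum.elim_inr, id] at h1
          obtain ⟨h2, h3⟩ := h.inj _ _ _ _ h1
          rw [show y = y' from Prod.ext h2 h3]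
      · intro x
        by_cases hx : ∀ i c, p i c ≠ x
        · exact ⟨Sum.inl ⟨x, hx⟩, rfl⟩
        · push Not at hx
          obtain ⟨i, c, hic⟩ := hx
          exact ⟨Sum.inr (i, c), hic⟩
    refine ⟨Equiv.ofBijective _ hbij, ?_, ?_⟩
    · intro n f v
      exact (hS (Fin M) n f v).2 id Function.injective_id.injOn
    · intro n r v
      have hn := hrl n r
      rw [hSr]
      constructor
      · rintro ⟨ι, hι, hr⟩
        exact Struct.rel_iff h (by omega) r v hι Function.injective_id.injOn hr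
      · intro hr
        exact ⟨id, Function.injective_id.injOn, hr⟩

end Pool.Agent.Helper87.AS
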