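import Pool.Agent.Helper87.AS.BTDefs

/-!
# AS-12: formulas with few variables do not see the number of blocks

Proof of `transfer` by induction on `ψ` (for all `I`, `J`, `ι`, `xs`). Terms: by `Functorial.fn`,
`t.realize (Sum.elim default (bmap p ι ∘ xs)) = bmap p ι (t.realize (Sum.elim default xs))` in the
structures `S J`, `S I` (induction on `t`). `bmap p ι` is injective (`equal`), `Functorial.rl` for `rel`;
`imp` clear (`le_max_left`, ...).
`all`: let `ψ : BoundedFormula Empty (n + 1)`, `mx ψ ≤ |I|`; one has `n + 1 ≤ mx ψ` (separate lemma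
`n ≤ mx ψ` by induction). Direction from `J` to `I`: put `y = bmap p ι x` (`Fin.snoc` commutes with
`bmap p ι ∘ _`). Direction from `I` to `J`: let `y : BT p J`. If `y = inl x` or `y = inr (ι i, c)` it is
`bmap p ι` of something: induction hypothesis for `ι`. Otherwise `y = inr (j, c)` with
`j ∉ Set.range ι`. As `n < |I|` there is `i : I` which does not occur in `xs` (no `xs t` is
`inr (i, c')`). Let `σ = Equiv.swap j (ι i) : J → J`. It is injective, `|J| ≥ |I| ≥ mx ψ`, it fixes all
`bmap p ι (xs t)` (their indices are in `Set.range ι` and different from `ι i`) and maps `y` to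
`inr (ι i, c) = bmap p ι (inr (i, c))`. By the induction hypothesis for `σ` and then for `ι`:
`ψ(ι xs, y) ⇔ ψ(σ ι xs, σ y) = ψ(ι xs, bmap p ι (inr (i, c))) ⇔ ψ(xs, inr (i, c))`.
-/

set_option autoImplicit false

namespace Pool.Agent.Helper87.AS

open FirstOrder FirstOrder.Language

private theorem le_mx {L : FirstOrder.Language.{0, 0}} {α : Type} {n : ℕ}
    (ψ : L.BoundedFormula α n) : n ≤ mx ψ := by
  induction ψ with
  | falsum => exact le_rfl
  | equal _ _ => exact le_rfl
  | rel _ _ => exact le_rfl
  | imp f g ihf ihg => exact ihf.trans (le_max_left _ _)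
  | all f ih => exact (Nat.le_succ _).trans ih

private theorem bmap_inj {A : Type} {M k : ℕ} (p : Fin M → Fin k → A) {I J : Type} {ι : I → J}
    (hι : Function.Injective ι) : Function.Injective (bmap p ι) :=
  Function.Injective.sumMap Function.injective_id (hι.prodMap Function.injective_id)

private theorem term_tr {L : FirstOrder.Language.{0, 0}} {A : Type} {M k : ℕ}
    {p : Fin M → Fin k → A} {S : ∀ I : Type, L.Structure (BT p I)} (hS : Functorial p S)
    {n : ℕ} (I J : Type) (ι : I → J) (hι : Function.Injective ι) (xs : Fin n → BT p I)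
    (t : L.Term (Empty ⊕ Fin n)) :
    @Term.realize L (BT p J) (S J) _ (Sum.elim default (bmap p ι ∘ xs)) t =
      bmap p ι (@Term.realize L (BT p I) (S I) _ (Sum.elim default xs) t) := by
  induction t with
  | var a =>
    rcases a with a | a
    · exact a.elim
    · rfl
  | func f ts ih =>
    have h1 : (fun i => @Term.realize L (BT p J) (S J) _
        (Sum.elim default (bmap p ι ∘ xs)) (ts i)) =
        bmap p ι ∘ fun i => @Term.realize L (BT p I) (S I) _ (Sum.elim default xs) (ts i) :=
      funext ih
    show (S J).funMap f (fun i => @Term.realize L (BT p J) (S J) _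
        (Sum.elim default (bmap p ι ∘ xs)) (ts i)) =
      bmap p ι ((S I).funMap f fun i => @Term.realize L (BT p I) (S I) _
        (Sum.elim default xs) (ts i))
    rw [h1]
    exact hS.fn I J ι hι _ f _

private theorem exists_free {A : Type} {M k : ℕ} {p : Fin M → Fin k → A} {n : ℕ} (I : Type)
    [Finite I] (hn : n + 1 ≤ Nat.card I) (xs : Fin n → BT p I) :
    ∃ i : I, ∀ t c, xs t ≠ Sum.inr (i, c) := by
  by_contra hno
  push Not at hno
  choose t c h using hno
  have hinj : Function.Injective t := by
    intro i i' he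
    have h1 := h i
    rw [he, h i'] at h1
    exact ((Prod.ext_iff.1 (Sum.inr.inj h1)).1).symm
  have h2 := Nat.card_le_card_of_injective t hinj
  rw [Nat.card_fin] at h2
  omega

private theorem tr_aux {L : FirstOrder.Language.{0, 0}} {A : Type} {M k : ℕ}
    {p : Fin M → Fin k → A} {S : ∀ I : Type, L.Structure (BT p I)} (hS : Functorial p S)
    {n : ℕ} (ψ : L.BoundedFormula Empty n) : ∀ (I J : Type) [Finite I] [Finite J] (ι : I → J)
    (_ : Function.Injective ι) (_ : mx ψ ≤ Nat.card I) (xs : Fin n → BT p I),
    @BoundedFormula.Realize L (BT p J) (S J) Empty n ψ default (bmap p ι ∘ xs) ↔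
      @BoundedFormula.Realize L (BT p I) (S I) Empty n ψ default xs := by
  classical
  induction ψ with
  | falsum =>
    intro I J _ _ ι hι hI xs
    exact Iff.rfl
  | @equal n t₁ t₂ =>
    intro I J _ _ ι hι hI xs
    show @Term.realize L (BT p J) (S J) _ (Sum.elim default (bmap p ι ∘ xs)) t₁ =
        @Term.realize L (BT p J) (S J) _ (Sum.elim default (bmap p ι ∘ xs)) t₂ ↔
      @Term.realize L (BT p I) (S I) _ (Sum.elim default xs) t₁ =
        @Term.realize L (BT p I) (S I) _ (Sum.elim default xs) t₂
    rw [term_tr hS I J ι hι xs t₁, term_tr hS I J ι hι xs t₂]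
    exact (bmap_inj p hι).eq_iff
  | @rel n l R ts =>
    intro I J _ _ ι hι hI xs
    have h1 : (fun i => @Term.realize L (BT p J) (S J) _
        (Sum.elim default (bmap p ι ∘ xs)) (ts i)) =
        bmap p ι ∘ fun i => @Term.realize L (BT p I) (S I) _ (Sum.elim default xs) (ts i) :=
      funext fun i => term_tr hS I J ι hι xs (ts i)
    show (S J).RelMap R (fun i => @Term.realize L (BT p J) (S J) _
        (Sum.elim default (bmap p ι ∘ xs)) (ts i)) ↔
      (S I).RelMap R fun i => @Term.realize L (BT p I) (S I) _ (Sum.elim default xs) (ts i)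
    rw [h1]
    exact hS.rl I J ι hι _ R _
  | @imp n f g ihf ihg =>
    intro I J _ _ ι hι hI xs
    have h1 := ihf I J ι hι ((le_max_left _ _).trans hI) xs
    have h2 := ihg I J ι hι ((le_max_right _ _).trans hI) xs
    exact ⟨fun h h3 => h2.1 (h (h1.2 h3)), fun h h3 => h2.2 (h (h1.1 h3))⟩
  | @all n f ih =>
    intro I J _ _ ι hι hI xs
    have hI' : mx f ≤ Nat.card I := hI
    have hIJ : Nat.card I ≤ Nat.card J := Nat.card_le_card_of_injective ι hι
    have hsn : ∀ x : BT p I, (Fin.snoc (bmap p ι ∘ xs) (bmap p ι x) : Fin (n + 1) → BT p J) =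
        bmap p ι ∘ (Fin.snoc xs x : Fin (n + 1) → BT p I) := by
      intro x
      exact (Fin.comp_snoc (bmap p ι) xs x).symm
    show (∀ y : BT p J, @BoundedFormula.Realize L (BT p J) (S J) Empty (n + 1) f default
        (Fin.snoc (bmap p ι ∘ xs) y)) ↔
      ∀ x : BT p I, @BoundedFormula.Realize L (BT p I) (S I) Empty (n + 1) f default
        (Fin.snoc xs x)
    have himg : (∀ x : BT p I, @BoundedFormula.Realize L (BT p I) (S I) Empty (n + 1) f default
        (Fin.snoc xs x)) → ∀ x : BT p I, @BoundedFormula.Realize L (BT p J) (S J) Empty (n + 1) f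
          default (Fin.snoc (bmap p ι ∘ xs) (bmap p ι x)) := by
      intro h x
      rw [hsn x]
      exact (ih I J ι hι hI' (Fin.snoc xs x)).2 (h x)
    constructor
    · intro h x
      have h1 := h (bmap p ι x)
      rw [hsn x] at h1
      exact (ih I J ι hι hI' (Fin.snoc xs x)).1 h1
    · intro h y
      rcases y with y | ⟨j, c⟩
      · exact himg h (Sum.inl y)
      · by_cases hj : ∃ i, ι i = j
        · obtain ⟨i, rfl⟩ := hj
          exact himg h (Sum.inr (i, c))
        · obtain ⟨i, hi⟩ := exists_free I ((le_mx f).trans hI') xs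
          have h1 := ih J J (Equiv.swap j (ι i)) (Equiv.swap j (ι i)).injective
            (hI'.trans hIJ) (Fin.snoc (bmap p ι ∘ xs) (Sum.inr (j, c)))
          rw [← h1]
          have h2 : bmap p (Equiv.swap j (ι i)) ∘
              (Fin.snoc (bmap p ι ∘ xs) (Sum.inr (j, c)) : Fin (n + 1) → BT p J) =
              Fin.snoc (bmap p ι ∘ xs) (bmap p ι (Sum.inr (i, c))) := by
            rw [Fin.comp_snoc]
            have h3 : bmap p (Equiv.swap j (ι i)) (Sum.inr (j, c)) =
                bmap p ι (Sum.inr (i, c)) := by
              show (Sum.inr (Equiv.swap j (ι i) j, c) : BT p J) = Sum.inr (ι i, c)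
              rw [Equiv.swap_apply_left]
            have h4 : bmap p (Equiv.swap j (ι i)) ∘ (bmap p ι ∘ xs) = bmap p ι ∘ xs := by
              funext t
              show bmap p (Equiv.swap j (ι i)) (bmap p ι (xs t)) = bmap p ι (xs t)
              rcases hx : xs t with x | ⟨i', c'⟩
              · rfl
              · show (Sum.inr (Equiv.swap j (ι i) (ι i'), c') : BT p J) = Sum.inr (ι i', c')
                rw [Equiv.swap_apply_of_ne_of_ne (fun he => hj ⟨i', he⟩)]
                intro he
                have he' := hι he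
                subst he'
                exact hi t c' hx
            rw [h3, h4]
          rw [h2]
          exact himg h (Sum.inr (i, c))

theorem transfer {L : FirstOrder.Language.{0, 0}} {A : Type} {M k : ℕ}
    {p : Fin M → Fin k → A} {S : ∀ I : Type, L.Structure (BT p I)} (hS : Functorial p S)
    {n : ℕ} (ψ : L.BoundedFormula Empty n) (I J : Type) [Finite I] [Finite J] (ι : I → J)
    (hι : Function.Injective ι) (hI : mx ψ ≤ Nat.card I) (xs : Fin n → BT p I) :
    @BoundedFormula.Realize L (BT p J) (S J) Empty n ψ default (bmap p ι ∘ xs) ↔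
      @BoundedFormula.Realize L (BT p I) (S I) Empty n ψ default xs := by
  exact tr_aux hS ψ I J ι hι hI xs

end Pool.Agent.Helper87.AS
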