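import Pool.Agent.Helper31.Spectra
import Pool.Agent.Helper87.AS.Struct
import Pool.Agent.Helper87.AS.Transfer

/-!
# AS-13: pumping

Proof of `pump`. `FinVoc L` gives `a` with no symbols of arity `> a`
(finite sets of arities). Take `M = max (a + 2) (mx φ)`, `R = a + 1`. Given `A`, `p`, `Homog`, `φ`:
`exists_str` gives `S`, `e`. `e` is an isomorphism of `BT p (Fin M)` with `A`, so `φ` holds in
`BT p (Fin M)`; `transfer` with `I = Fin M`, `J = Fin (M + j)`, `ι = Fin.castAdd j` gives `φ` in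
`B = BT p (Fin (M + j))`. Cardinalities: `|{x // ..}| + M * k = |A|` by `e`, so
`|B| = |{x // ..}| + (M + j) * k = |A| + j * k`.
-/

set_option autoImplicit false

namespace Pool.Agent.Helper87.AS

open FirstOrder FirstOrder.Language Pool.Agent.Helper31.Spectra

/-- The arities of a finite vocabulary are bounded. -/
private theorem exists_arity {L : FirstOrder.Language.{0, 0}} (hL : FinVoc L) :
    ∃ a : ℕ, ∀ n, a < n → IsEmpty (L.Functions n) ∧ IsEmpty (L.Relations n) := by
  obtain ⟨hL1, hL2⟩ := hL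
  obtain ⟨b1, hb1⟩ := (Set.finite_range (fun z : Σ n, L.Functions n => z.1)).bddAbove
  obtain ⟨b2, hb2⟩ := (Set.finite_range (fun z : Σ n, L.Relations n => z.1)).bddAbove
  refine ⟨max b1 b2, fun n hn => ⟨⟨fun f => ?_⟩, ⟨fun r => ?_⟩⟩⟩
  · have h1 : n ≤ b1 := hb1 ⟨⟨n, f⟩, rfl⟩
    exact absurd (lt_of_le_of_lt (le_max_left b1 b2) hn) (not_lt.2 h1)
  · have h1 : n ≤ b2 := hb2 ⟨⟨n, r⟩, rfl⟩
    exact absurd (lt_of_le_of_lt (le_max_right b1 b2) hn) (not_lt.2 h1)

theorem pump {L : FirstOrder.Language.{0, 0}} (hL : FinVoc L) (φ : L.Sentence) :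
    ∃ M R : ℕ, ∀ (A : Type) [L.Structure A] [Finite A] (k : ℕ) (p : Fin M → Fin k → A),
      Homog L A p R → φ.Realize A → ∀ j : ℕ,
        ∃ (B : Type) (_ : L.Structure B), Nat.card B = Nat.card A + j * k ∧ φ.Realize B := by
  classical
  obtain ⟨a, ha⟩ := exists_arity hL
  refine ⟨max (a + 2) (mx φ), a + 1, ?_⟩
  intro A _ _ k p hp hφ j
  obtain ⟨S, hS, e, he1, he2⟩ := exists_str hp ha (le_max_left _ _) le_rfl
  have hM : @Sentence.Realize L (BT p (Fin (max (a + 2) (mx φ)))) (S _) φ := by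
    let _ := S (Fin (max (a + 2) (mx φ)))
    let E : BT p (Fin (max (a + 2) (mx φ))) ≃[L] A :=
      { e with
        map_fun' := fun {n} f v => he1 n f v
        map_rel' := fun {n} r v => (he2 n r v).symm }
    exact (StrongHomClass.realize_sentence E φ).2 hφ
  refine ⟨BT p (Fin (max (a + 2) (mx φ) + j)), S _, ?_, ?_⟩
  · have h1 : Nat.card (BT p (Fin (max (a + 2) (mx φ)))) = Nat.card A := Nat.card_congr e
    rw [← h1, Nat.card_sum, Nat.card_sum, Nat.card_prod, Nat.card_prod]
    simp only [Nat.card_eq_fintype_card, Fintype.card_fin]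
    ring
  · have h1 := transfer hS φ (Fin (max (a + 2) (mx φ))) (Fin (max (a + 2) (mx φ) + j))
      (Fin.castAdd j) (Fin.castAdd_injective _ _) (by
        rw [Nat.card_eq_fintype_card, Fintype.card_fin]
        exact le_max_right _ _) default
    have h2 : bmap p (Fin.castAdd j : Fin (max (a + 2) (mx φ)) → _) ∘
        (default : Fin 0 → BT p (Fin (max (a + 2) (mx φ)))) = default :=
      Subsingleton.elim _ _
    rw [h2] at h1
    exact h1.2 hM

end Pool.Agent.Helper87.AS
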